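import Pool.Agent.Y921.PW.Log

/-!
# Iwasawa logarithms of `v + g p^e`
-/

set_option autoImplicit false

open PowerSeries

namespace Pool.Agent.Y921.PW

variable {p : ℕ} [Fact p.Prime]

lemma cv_lgp {x : ℚ_[p]} (hx : ‖x‖ < 1) (g : ℕ) : Cvp x (lgp g) := by
  have h1 : Summable fun m : ℕ => (m : ℝ) ^ 1 * ‖x‖ ^ m :=
    summable_pow_mul_geometric_of_norm_lt_one 1 (by rwa [norm_norm])
  refine Summable.of_nonneg_of_le (fun m => by positivity) (fun m => ?_) h1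
  refine mul_le_mul_of_nonneg_right ?_ (by positivity)
  rw [pow_one]
  rcases Nat.eq_zero_or_pos m with h | h
  · rw [h, coeff_lgp]
    simp
  · refine norm_of_den h (a := -(-(g : ℤ)) ^ m) ?_
    rw [coeff_lgp]
    have : (m : ℚ) ≠ 0 := by exact_mod_cast h.ne'
    push_cast
    field_simp

lemma ev_lgp {A : Type} [NormedField A] [NormedAlgebra ℚ_[p] A] {x : ℚ_[p]} (hx : ‖x‖ < 1) (g : ℕ) :
    HasSum (fun n : ℕ => (-1 : A) ^ n * (algebraMap ℚ_[p] A (g * x)) ^ (n + 1) / ((n : A) + 1))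
      (algebraMap ℚ_[p] A (evp x (lgp g))) := by
  have h1 : HasSum (fun m : ℕ => ((coeff m (lgp g) : ℚ) : ℚ_[p]) * x ^ m) (evp x (lgp g)) :=
    (cv_lgp hx g).summable.hasSum
  have h2 : HasSum (fun m : ℕ => ((coeff (m + 1) (lgp g) : ℚ) : ℚ_[p]) * x ^ (m + 1)) (evp x (lgp g)) := by
    have := (hasSum_nat_add_iff' 1).2 h1
    rwa [Finset.sum_range_one, coeff_lgp, Nat.cast_zero, div_zero, neg_zero, Rat.cast_zero, zero_mul, sub_zero] at this
  have h3 := h2.map (algebraMap ℚ_[p] A) (algebraMap_isometry ℚ_[p] A).continuous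
  convert h3 using 1
  funext n
  have h4 : ((coeff (n + 1) (lgp g) : ℚ) : ℚ_[p]) * x ^ (n + 1) = (-1) ^ n * (g * x) ^ (n + 1) / ((n : ℚ_[p]) + 1) := by
    rw [coeff_lgp, mul_pow, neg_pow]
    push_cast
    have : ((n : ℚ_[p]) + 1) ≠ 0 := by exact_mod_cast Nat.succ_ne_zero n
    field_simp
    ring
  rw [Function.comp_apply, h4]
  simp only [map_div₀, map_mul, map_pow, map_neg, map_one, map_add, map_natCast]

/-- the properties of Iwasawa's logarithm -/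
structure Iw (p : ℕ) [Fact p.Prime] {A : Type} [NormedField A] [NormedAlgebra ℚ_[p] A] (L : A → A) : Prop where
  mul : ∀ x y : A, x ≠ 0 → y ≠ 0 → L (x * y) = L x + L y
  prime : L ((p : ℕ) : A) = 0
  ser : ∀ z : A, ‖z‖ < 1 → HasSum (fun n : ℕ => (-1 : A) ^ n * z ^ (n + 1) / ((n : A) + 1)) (L (1 + z))

lemma natCast_ne (p : ℕ) [Fact p.Prime] {A : Type} [NormedField A] [NormedAlgebra ℚ_[p] A] {n : ℕ} (hn : n ≠ 0) :
    (n : A) ≠ 0 := by
  have h1 : (algebraMap ℚ_[p] A) ((n : ℕ) : ℚ_[p]) ≠ 0 := by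
    rw [Ne, _root_.map_eq_zero]
    exact_mod_cast hn
  rwa [map_natCast] at h1

section
variable {A : Type} [NormedField A] [NormedAlgebra ℚ_[p] A] {L : A → A}

theorem Iw.shift (hL : Iw p L) {e v : ℕ} (he : 1 ≤ e) (hv : ¬ p ∣ v) (g : ℕ) :
    L ((v + g * p ^ e : ℕ) : A) = L (v : A) +
      algebraMap ℚ_[p] A (evp ((((p ^ e : ℕ) : ℚ) / v : ℚ) : ℚ_[p]) (lgp g)) := by
  have hv0 : v ≠ 0 := by
    rintro rfl
    exact hv (dvd_zero p)
  set x : ℚ_[p] := ((((p ^ e : ℕ) : ℚ) / v : ℚ) : ℚ_[p]) with hx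
  have hxt := norm_point (p := p) (e := e) hv
  rw [← hx] at hxt
  have hp1 : 1 < p := (Fact.out : p.Prime).one_lt
  have hx1 : ‖x‖ < 1 := by
    rw [hxt, div_lt_one (by
      have : 0 < p ^ e := pow_pos (by omega) e
      exact_mod_cast this)]
    have : 1 < p ^ e := Nat.one_lt_pow (by omega) hp1
    exact_mod_cast this
  have hgx : ‖(algebraMap ℚ_[p] A) (g * x)‖ < 1 := by
    rw [norm_algebraMap', norm_mul]
    have h1 : ‖(g : ℚ_[p])‖ ≤ 1 := by
      have := Padic.norm_int_le_one (p := p) (g : ℤ)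
      simpa using this
    calc ‖(g : ℚ_[p])‖ * ‖x‖ ≤ 1 * ‖x‖ := mul_le_mul_of_nonneg_right h1 (norm_nonneg _)
      _ < 1 := by rw [one_mul]; exact hx1
  have h1 : L (1 + (algebraMap ℚ_[p] A) (g * x)) = algebraMap ℚ_[p] A (evp x (lgp g)) :=
    (hL.ser _ hgx).unique (ev_lgp hx1 g)
  have hv' : (v : A) ≠ 0 := natCast_ne p hv0
  have hvQ : (v : ℚ_[p]) ≠ 0 := by exact_mod_cast hv0
  have h2 : ((v + g * p ^ e : ℕ) : A) = (v : A) * (1 + (algebraMap ℚ_[p] A) (g * x)) := by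
    have h3 : (v : ℚ_[p]) * (1 + g * x) = ((v + g * p ^ e : ℕ) : ℚ_[p]) := by
      rw [hx]
      push_cast
      field_simp
    have h4 := congrArg (algebraMap ℚ_[p] A) h3
    rw [map_mul, map_natCast, map_natCast, map_add, map_one] at h4
    exact h4.symm
  have h5 : (1 + (algebraMap ℚ_[p] A) (g * x)) ≠ 0 := by
    intro h
    rw [h, mul_zero] at h2
    exact natCast_ne p (by omega) h2
  rw [h2, hL.mul _ _ hv' h5, h1]

theorem Iw.pow_p (hL : Iw p L) (j : ℕ) {n : ℕ} (hn : n ≠ 0) : L ((p ^ j * n : ℕ) : A) = L (n : A) := by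
  induction j with
  | zero => simp
  | succ j ih =>
    have h1 : ((p ^ (j + 1) * n : ℕ) : A) = (p : A) * ((p ^ j * n : ℕ) : A) := by push_cast; ring
    have hp0 : p ≠ 0 := (Fact.out : p.Prime).ne_zero
    rw [h1, hL.mul _ _ (natCast_ne p hp0) (natCast_ne p (Nat.mul_ne_zero (pow_ne_zero j hp0) hn)),
      hL.prime, zero_add, ih]

end

end Pool.Agent.Y921.PW
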