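import Pool.Agent.Y921.PW.Ev
import Pool.Agent.Y113.G.Lin
import Pool.Agent.Y113.G.Est

/-!
# Product formula, sums of absolute values of coefficients, determinants
-/

set_option autoImplicit false

open PowerSeries Finset.HasAntidiagonal

namespace Pool.Agent.Y921.PW

open Pool.Agent.Y113

section PF

variable {p : ℕ} [Fact p.Prime]

/-- the product formula for integers, one prime -/
theorem prod_formula {z : ℤ} (hz : z ≠ 0) : 1 ≤ |(z : ℝ)| * ‖(z : ℚ_[p])‖ := by
  have hp : (0 : ℝ) < p := by exact_mod_cast (Fact.out : p.Prime).pos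
  have hz' : (z : ℚ_[p]) ≠ 0 := by exact_mod_cast hz
  rw [Padic.norm_eq_zpow_neg_valuation hz', Padic.valuation_intCast, zpow_neg, zpow_natCast]
  have h1 : p ^ padicValInt p z ∣ z.natAbs := by
    unfold padicValInt
    exact pow_padicValNat_dvd
  have h2 : p ^ padicValInt p z ≤ z.natAbs := Nat.le_of_dvd (Int.natAbs_pos.2 hz) h1
  have h3 : ((p : ℝ) ^ padicValInt p z) ≤ |(z : ℝ)| := by
    have h4 : ((p ^ padicValInt p z : ℕ) : ℝ) ≤ (z.natAbs : ℝ) := by exact_mod_cast h2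
    rw [Nat.cast_natAbs] at h4
    push_cast at h4
    exact h4
  rw [← div_eq_mul_inv, le_div_iff₀ (by positivity), one_mul]
  exact h3

/-- denominators -/
theorem norm_of_den {c : ℚ} {d : ℕ} (hd : 0 < d) {a : ℤ} (h : (d : ℚ) * c = a) : ‖(c : ℚ_[p])‖ ≤ d := by
  have h1 : (d : ℚ_[p]) * (c : ℚ_[p]) = (a : ℚ_[p]) := by exact_mod_cast congrArg (fun q : ℚ => (q : ℚ_[p])) h
  have h2 := prod_formula (p := p) (z := (d : ℤ)) (by exact_mod_cast hd.ne')
  have h3 : ‖(d : ℚ_[p])‖ * ‖(c : ℚ_[p])‖ ≤ 1 := by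
    rw [← norm_mul, h1]
    exact Padic.norm_int_le_one a
  push_cast at h2
  rw [Nat.abs_cast] at h2
  have hd0 : (0 : ℝ) < d := by exact_mod_cast hd
  calc ‖(c : ℚ_[p])‖ = 1 * ‖(c : ℚ_[p])‖ := (one_mul _).symm
    _ ≤ ((d : ℝ) * ‖(d : ℚ_[p])‖) * ‖(c : ℚ_[p])‖ := mul_le_mul_of_nonneg_right h2 (norm_nonneg _)
    _ = d * (‖(d : ℚ_[p])‖ * ‖(c : ℚ_[p])‖) := by ring
    _ ≤ d * 1 := mul_le_mul_of_nonneg_left h3 hd0.le
    _ = d := mul_one _

/-- the inequality from a nonzero determinant -/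
theorem det_ineq_p {N : ℕ} (M : Matrix (Fin N) (Fin N) ℤ) (hM : M.det ≠ 0) (r₀ i₀ : Fin N) (Y : Fin N → ℚ_[p])
    (hY : Y i₀ = 1) (h0 : ∑ j, (M r₀ j : ℚ_[p]) * Y j = 0) (A X L : ℝ) (hA : 0 ≤ A) (hX : 1 ≤ X) (hL : 0 ≤ L)
    (hMA : ∀ j, |(M r₀ j : ℝ)| ≤ A) (hMX : ∀ r, r ≠ r₀ → ∀ j, |(M r j : ℝ)| ≤ X)
    (hML : ∀ r, r ≠ r₀ → ‖∑ j, (M r j : ℚ_[p]) * Y j‖ ≤ L) :
    1 ≤ N.factorial * (A * X ^ (N - 1)) * L := by
  classical
  -- archimedean bound
  have h1 : |((M.det : ℤ) : ℝ)| ≤ N.factorial * (A * X ^ (N - 1)) := by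
    rw [Int.cast_det]
    refine (det_bound _ (fun s => if s = r₀ then A else X) ?_).trans (le_of_eq ?_)
    · intro s j
      by_cases hs : s = r₀
      · rw [if_pos hs, hs]; exact hMA j
      · rw [if_neg hs]; exact hMX s hs j
    · congr 1
      rw [← Finset.mul_prod_erase Finset.univ _ (Finset.mem_univ r₀), if_pos rfl]
      congr 1
      rw [Finset.prod_congr rfl (g := fun _ => X) (fun s hs => by
        rw [Finset.mem_erase] at hs
        rw [if_neg hs.1])]
      rw [Finset.prod_const, Finset.card_erase_of_mem (Finset.mem_univ r₀), Finset.card_univ, Fintype.card_fin]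
  -- p-adic bound
  set R : Matrix (Fin N) (Fin N) ℚ_[p] := M.map (Int.cast : ℤ → ℚ_[p]) with hR
  have hdet : R.det = ((M.det : ℤ) : ℚ_[p]) := (Int.cast_det (R := ℚ_[p]) M).symm
  have h2 : ‖((M.det : ℤ) : ℚ_[p])‖ ≤ L := by
    have h3 : R.adjugate.mulVec (R.mulVec Y) = R.det • Y := by
      rw [Matrix.mulVec_mulVec, Matrix.adjugate_mul, Matrix.smul_mulVec, Matrix.one_mulVec]
    have h4 := congrFun h3 i₀
    rw [Pi.smul_apply, smul_eq_mul, hY, mul_one, hdet] at h4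
    rw [← h4]
    have h5 : (R.adjugate.mulVec (R.mulVec Y)) i₀ = ∑ r, R.adjugate i₀ r * (R.mulVec Y) r := rfl
    rw [h5]
    refine IsUltrametricDist.norm_sum_le_of_forall_le_of_nonneg hL fun r _ => ?_
    have hmv : (R.mulVec Y) r = ∑ j, (M r j : ℚ_[p]) * Y j := rfl
    by_cases hr : r = r₀
    · rw [hmv, hr, h0, mul_zero, norm_zero]; exact hL
    · rw [norm_mul, hmv]
      have h6 : R.adjugate i₀ r = ((M.adjugate i₀ r : ℤ) : ℚ_[p]) := by
        have h7 := RingHom.map_adjugate (Int.castRingHom ℚ_[p]) M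
        have h8 := congrFun (congrFun h7 i₀) r
        exact h8.symm
      rw [h6]
      calc ‖((M.adjugate i₀ r : ℤ) : ℚ_[p])‖ * ‖∑ j, (M r j : ℚ_[p]) * Y j‖ ≤ 1 * L :=
            mul_le_mul (Padic.norm_int_le_one _) (hML r hr) (norm_nonneg _) zero_le_one
        _ = L := one_mul L
  refine (prod_formula (p := p) hM).trans ?_
  exact mul_le_mul h1 h2 (norm_nonneg _) (by positivity)

end PF

section L1

/-- sum of the absolute values of the coefficients -/
noncomputable def l1 (Q : Polynomial ℤ) : ℝ := ∑ i ∈ Finset.range (Q.natDegree + 1), |(Q.coeff i : ℝ)|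

theorem l1_nonneg (Q : Polynomial ℤ) : 0 ≤ l1 Q := Finset.sum_nonneg fun _ _ => abs_nonneg _

theorem l1_range {Q : Polynomial ℤ} {M : ℕ} (h : Q.natDegree ≤ M) :
    ∑ i ∈ Finset.range (M + 1), |(Q.coeff i : ℝ)| = l1 Q := by
  unfold l1
  symm
  refine Finset.sum_subset (Finset.range_subset_range.2 (by omega)) fun i _ hi => ?_
  rw [Finset.mem_range, not_lt] at hi
  rw [Polynomial.coeff_eq_zero_of_natDegree_lt (by omega)]
  simp

theorem l1_bound {Q : Polynomial ℤ} {M : ℕ} {A : ℝ} (hQ : Q.natDegree ≤ M) (hc : ∀ l, |((Q.coeff l : ℤ) : ℝ)| ≤ A) :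
    l1 Q ≤ (M + 1) * A := by
  rw [← l1_range hQ]
  refine (Finset.sum_le_sum fun i _ => hc i).trans ?_
  simp

theorem l1_add (P Q : Polynomial ℤ) : l1 (P + Q) ≤ l1 P + l1 Q := by
  have h1 : (P + Q).natDegree ≤ max P.natDegree Q.natDegree := Polynomial.natDegree_add_le _ _
  rw [← l1_range h1, ← l1_range (le_max_left P.natDegree Q.natDegree), ← l1_range (le_max_right P.natDegree Q.natDegree),
    ← Finset.sum_add_distrib]
  refine Finset.sum_le_sum fun i _ => ?_
  rw [Polynomial.coeff_add]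
  push_cast
  exact abs_add_le _ _

theorem l1_zero : l1 0 = 0 := by simp [l1]

theorem l1_one : l1 1 = 1 := by simp [l1]

theorem l1_sum {σ : Type*} (s : Finset σ) (f : σ → Polynomial ℤ) : l1 (∑ i ∈ s, f i) ≤ ∑ i ∈ s, l1 (f i) := by
  classical
  induction s using Finset.induction_on with
  | empty => simp [l1_zero]
  | insert a s ha ih =>
    rw [Finset.sum_insert ha, Finset.sum_insert ha]
    exact (l1_add _ _).trans (by linarith)

theorem l1_mul (P Q : Polynomial ℤ) : l1 (P * Q) ≤ l1 P * l1 Q := by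
  classical
  have h1 : (P * Q).natDegree ≤ P.natDegree + Q.natDegree := Polynomial.natDegree_mul_le
  rw [← l1_range h1]
  have h2 : ∀ k, |((P * Q).coeff k : ℝ)| ≤ ∑ x ∈ antidiagonal k, |(P.coeff x.1 : ℝ)| * |(Q.coeff x.2 : ℝ)| := by
    intro k
    rw [Polynomial.coeff_mul]
    push_cast
    refine (Finset.abs_sum_le_sum_abs _ _).trans (Finset.sum_le_sum fun x _ => ?_)
    rw [abs_mul]
  refine (Finset.sum_le_sum fun k _ => h2 k).trans ?_
  unfold l1
  rw [Finset.sum_mul_sum, ← Finset.sum_product', Finset.sum_sigma']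
  have h3 : ∑ x ∈ (Finset.range (P.natDegree + Q.natDegree + 1)).sigma fun k => antidiagonal k,
      |(P.coeff x.2.1 : ℝ)| * |(Q.coeff x.2.2 : ℝ)| =
      ∑ x ∈ ((Finset.range (P.natDegree + Q.natDegree + 1)).sigma fun k => antidiagonal k).image (fun x => x.2),
      |(P.coeff x.1 : ℝ)| * |(Q.coeff x.2 : ℝ)| := by
    rw [Finset.sum_image]
    rintro ⟨k, x⟩ hx ⟨k', x'⟩ hx' hxx
    rw [Finset.mem_coe, Finset.mem_sigma, Finset.HasAntidiagonal.mem_antidiagonal] at hx hx'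
    simp only at hx hx' hxx
    subst hxx
    have : k = k' := by omega
    subst this
    rfl
  rw [h3]
  have h4 : ∀ x : ℕ × ℕ, x ∉ Finset.range (P.natDegree + 1) ×ˢ Finset.range (Q.natDegree + 1) →
      |(P.coeff x.1 : ℝ)| * |(Q.coeff x.2 : ℝ)| = 0 := by
    intro x hx
    rw [Finset.mem_product, Finset.mem_range, Finset.mem_range, not_and_or] at hx
    rcases hx with h | h
    · rw [Polynomial.coeff_eq_zero_of_natDegree_lt (show P.natDegree < x.1 by omega)]
      simp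
    · rw [Polynomial.coeff_eq_zero_of_natDegree_lt (show Q.natDegree < x.2 by omega)]
      simp
  rw [← Finset.sum_filter_add_sum_filter_not _ (fun x => x ∈ Finset.range (P.natDegree + 1) ×ˢ
    Finset.range (Q.natDegree + 1))]
  rw [Finset.sum_eq_zero (s := Finset.filter (fun x => ¬ _) _) (fun x hx => h4 x (Finset.mem_filter.1 hx).2), add_zero]
  exact Finset.sum_le_sum_of_subset_of_nonneg (fun x hx => (Finset.mem_filter.1 hx).2) fun _ _ _ => by positivity

theorem l1_pow (P : Polynomial ℤ) (n : ℕ) : l1 (P ^ n) ≤ l1 P ^ n := by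
  induction n with
  | zero => simp [l1_one]
  | succ n ih =>
    rw [pow_succ, pow_succ]
    exact (l1_mul _ _).trans (mul_le_mul_of_nonneg_right ih (l1_nonneg _))

/-- homogeneous evaluation -/
theorem hom_eval {Q : Polynomial ℤ} {M : ℕ} (hQ : Q.natDegree ≤ M) {t v : ℕ} (hv : 0 < v) (hvt : v ≤ t) :
    ∃ z : ℤ, (z : ℚ) = (v : ℚ) ^ M * (Q.map (Int.castRingHom ℚ)).eval ((t : ℚ) / v) ∧ |(z : ℝ)| ≤ (t : ℝ) ^ M * l1 Q := by
  refine ⟨∑ i ∈ Finset.range (M + 1), Q.coeff i * ((t : ℤ) ^ i * (v : ℤ) ^ (M - i)), ?_, ?_⟩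
  · rw [Polynomial.eval_map, Polynomial.eval₂_eq_sum_range' (Int.castRingHom ℚ) (n := M + 1) (by omega), Finset.mul_sum]
    push_cast
    refine Finset.sum_congr rfl fun i hi => ?_
    rw [Finset.mem_range] at hi
    have hv' : (v : ℚ) ≠ 0 := by exact_mod_cast hv.ne'
    have h1 : (v : ℚ) ^ M = v ^ (M - i) * v ^ i := by rw [← pow_add]; congr 1; omega
    rw [h1, div_pow]
    simp only [eq_intCast]
    field_simp
  · push_cast
    refine (Finset.abs_sum_le_sum_abs _ _).trans ?_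
    rw [← l1_range hQ, Finset.mul_sum]
    refine Finset.sum_le_sum fun i hi => ?_
    rw [Finset.mem_range] at hi
    have hv0 : (0 : ℝ) < v := by exact_mod_cast hv
    have ht0 : (0 : ℝ) ≤ t := by positivity
    have hvt' : (v : ℝ) ≤ t := by exact_mod_cast hvt
    rw [abs_mul, abs_of_nonneg (show (0 : ℝ) ≤ (t : ℝ) ^ i * (v : ℝ) ^ (M - i) by positivity), mul_comm]
    refine mul_le_mul_of_nonneg_right ?_ (abs_nonneg _)
    calc (t : ℝ) ^ i * (v : ℝ) ^ (M - i) ≤ (t : ℝ) ^ i * (t : ℝ) ^ (M - i) :=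
          mul_le_mul_of_nonneg_left (pow_le_pow_left₀ hv0.le hvt' _) (by positivity)
      _ = (t : ℝ) ^ M := by rw [← pow_add]; congr 1; omega

variable {N q : ℕ} {C : ℝ} {T : Polynomial ℤ}

/-- size of the derived vector -/
theorem PdZ_l1 {G : ℕ → Fin N → Fin N → Polynomial ℤ} {P : Fin N → Polynomial ℤ} {n K : ℕ} {A D : ℝ}
    (hD2 : 2 ≤ D) (hCD : C ≤ D) (hC : 1 ≤ C) (hA : 0 ≤ A)
    (hT : T.natDegree ≤ q) (hTc : ∀ l, |((T.coeff l : ℤ) : ℝ)| ≤ C)
    (hP : ∀ i, (P i).natDegree ≤ n) (hPc : ∀ i l, |(((P i).coeff l : ℤ) : ℝ)| ≤ A)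
    (hG : ∀ s ≤ K, ∀ i j, (G s i j).natDegree ≤ q * s)
    (hGc : ∀ s ≤ K, ∀ i j l, |(((G s i j).coeff l : ℤ) : ℝ)| ≤ C ^ (K + 1)) {k : ℕ} (hk : k ≤ K) (j : Fin N) :
    l1 (PdZ T G P k j) ≤ D ^ ((2 * q + 3) * K + 2 * n + N + 1) * A := by
  have hD0 : 0 ≤ D := by linarith
  have hD1 : 1 ≤ D := by linarith
  have hnat : ∀ a : ℕ, (a : ℝ) + 1 ≤ D ^ a := by
    intro a
    calc (a : ℝ) + 1 ≤ 2 ^ a := by
          have : a + 1 ≤ 2 ^ a := Nat.lt_two_pow_self
          exact_mod_cast this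
      _ ≤ D ^ a := pow_le_pow_left₀ (by norm_num) hD2 a
  have hTx : l1 T ≤ D ^ (q + 1) := by
    refine (l1_bound hT hTc).trans ?_
    rw [pow_succ]
    exact mul_le_mul (hnat q) hCD (by linarith) (by positivity)
  have hPx : ∀ i, ∀ a, l1 (Polynomial.hasseDeriv a (P i)) ≤ D ^ (2 * n) * A := by
    intro i a
    have h1 : (Polynomial.hasseDeriv a (P i)).natDegree ≤ n :=
      (Polynomial.natDegree_hasseDeriv_le _ _).trans ((Nat.sub_le _ _).trans (hP i))
    have h2 : ∀ l, |(((Polynomial.hasseDeriv a (P i)).coeff l : ℤ) : ℝ)| ≤ 2 ^ n * A := by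
      intro l
      rw [Polynomial.hasseDeriv_coeff]
      rcases le_or_gt (l + a) n with h | h
      · push_cast
        rw [abs_mul, Nat.abs_cast]
        have h3 : (((l + a).choose a : ℕ) : ℝ) ≤ 2 ^ n := by
          calc (((l + a).choose a : ℕ) : ℝ) ≤ 2 ^ (l + a) := by exact_mod_cast Nat.choose_le_two_pow _ _
            _ ≤ 2 ^ n := pow_le_pow_right₀ (by norm_num) h
        exact mul_le_mul h3 (hPc _ _) (abs_nonneg _) (by positivity)
      · rw [Polynomial.coeff_eq_zero_of_natDegree_lt (lt_of_le_of_lt (hP i) h)]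
        simp only [mul_zero, Int.cast_zero, abs_zero]
        positivity
    refine (l1_bound h1 h2).trans ?_
    have h4 : (2 : ℝ) ^ n ≤ D ^ n := pow_le_pow_left₀ (by norm_num) hD2 n
    calc ((n : ℝ) + 1) * (2 ^ n * A) ≤ D ^ n * (D ^ n * A) :=
          mul_le_mul (hnat n) (mul_le_mul_of_nonneg_right h4 hA) (by positivity) (by positivity)
      _ = D ^ (2 * n) * A := by rw [two_mul, pow_add]; ring
  have hGx : ∀ s ≤ K, ∀ i j, l1 (G s i j) ≤ D ^ (q * K + K + 1) := by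
    intro s hs i j
    have h1 : (G s i j).natDegree ≤ q * K := (hG s hs i j).trans (Nat.mul_le_mul_left _ hs)
    refine (l1_bound h1 (hGc s hs i j)).trans ?_
    have h2 : C ^ (K + 1) ≤ D ^ (K + 1) := pow_le_pow_left₀ (by linarith) hCD _
    calc (((q * K : ℕ) : ℝ) + 1) * C ^ (K + 1) ≤ D ^ (q * K) * D ^ (K + 1) :=
          mul_le_mul (hnat _) h2 (by positivity) (by positivity)
      _ = D ^ (q * K + K + 1) := by rw [← pow_add]; congr 1
  unfold PdZ
  refine (l1_sum _ _).trans ?_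
  have hterm : ∀ x ∈ antidiagonal k, l1 (∑ i, T ^ x.1 * Polynomial.hasseDeriv x.1 (P i) * G x.2 i j) ≤
      N * (D ^ ((q + 1) * K) * (D ^ (2 * n) * A) * D ^ (q * K + K + 1)) := by
    intro x hx
    rw [Finset.HasAntidiagonal.mem_antidiagonal] at hx
    refine (l1_sum _ _).trans ?_
    have h1 : ∀ i : Fin N, l1 (T ^ x.1 * Polynomial.hasseDeriv x.1 (P i) * G x.2 i j) ≤
        D ^ ((q + 1) * K) * (D ^ (2 * n) * A) * D ^ (q * K + K + 1) := by
      intro i
      refine (l1_mul _ _).trans ?_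
      refine mul_le_mul ((l1_mul _ _).trans ?_) (hGx _ (by omega) _ _) (l1_nonneg _) (by positivity)
      refine mul_le_mul ((l1_pow _ _).trans ?_) (hPx i _) (l1_nonneg _) (by positivity)
      calc l1 T ^ x.1 ≤ (D ^ (q + 1)) ^ x.1 := pow_le_pow_left₀ (l1_nonneg _) hTx _
        _ = D ^ ((q + 1) * x.1) := by rw [← pow_mul]
        _ ≤ D ^ ((q + 1) * K) := pow_le_pow_right₀ hD1 (Nat.mul_le_mul_left _ (by omega))
    refine (Finset.sum_le_sum fun i _ => h1 i).trans ?_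
    simp
  refine (Finset.sum_le_sum hterm).trans ?_
  rw [Finset.sum_const, Finset.Nat.card_antidiagonal, nsmul_eq_mul]
  have h3 : (((k + 1 : ℕ)) : ℝ) ≤ D ^ K := by
    push_cast
    calc (k : ℝ) + 1 ≤ (K : ℝ) + 1 := by have : (k : ℝ) ≤ K := by exact_mod_cast hk
                                         linarith
      _ ≤ D ^ K := hnat K
  have h4 : (N : ℝ) ≤ D ^ N := by
    have := hnat N
    linarith
  calc (((k + 1 : ℕ)) : ℝ) * (N * (D ^ ((q + 1) * K) * (D ^ (2 * n) * A) * D ^ (q * K + K + 1)))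
      ≤ D ^ K * (D ^ N * (D ^ ((q + 1) * K) * (D ^ (2 * n) * A) * D ^ (q * K + K + 1))) := by
        refine mul_le_mul h3 (mul_le_mul_of_nonneg_right h4 (by positivity)) (by positivity) (by positivity)
    _ = D ^ ((2 * q + 3) * K + 2 * n + N + 1) * A := by
        have : (2 * q + 3) * K + 2 * n + N + 1 = K + (N + ((q + 1) * K + (2 * n + (q * K + K + 1)))) := by ring
        rw [this, pow_add, pow_add, pow_add, pow_add]
        ring

end L1

end Pool.Agent.Y921.PW
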