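import Pool.Agent.Y921.PW.Arch
import Pool.Agent.Y113.G.Main

/-!
# The main theorem on G-systems, `p`-adic version: the estimate
-/

set_option autoImplicit false

open PowerSeries Finset.HasAntidiagonal

namespace Pool.Agent.Y921.PW

open Pool.Agent.Y113

variable {p : ℕ} [Fact p.Prime]

lemma aeval_int (Q : Polynomial ℤ) (ξ : ℚ) : Polynomial.aeval ((ξ : ℚ) : ℚ_[p]) Q =
    (((Q.map (Int.castRingHom ℚ)).eval ξ : ℚ) : ℚ_[p]) := by
  rw [Polynomial.eval_map, Polynomial.aeval_def, Polynomial.eval₂_eq_sum_range, Polynomial.eval₂_eq_sum_range]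
  push_cast
  rfl

lemma norm_aeval_le {x : ℚ_[p]} (hx : ‖x‖ ≤ 1) (Q : Polynomial ℤ) : ‖Polynomial.aeval x Q‖ ≤ 1 := by
  rw [Polynomial.aeval_eq_sum_range]
  refine IsUltrametricDist.norm_sum_le_of_forall_le_of_nonneg zero_le_one fun i _ => ?_
  rw [zsmul_eq_mul, norm_mul, norm_pow]
  calc ‖((Q.coeff i : ℤ) : ℚ_[p])‖ * ‖x‖ ^ i ≤ 1 * 1 :=
        mul_le_mul (Padic.norm_int_le_one _) (pow_le_one₀ (norm_nonneg _) hx) (by positivity) zero_le_one
    _ = 1 := one_mul 1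

/-- `p`-adic size of the coefficients of a G-system -/
lemma size_p {ι : Type} [Fintype ι] {q : ℕ} {C : ℝ} {T : Polynomial ℤ} {y : ι → ℚ⟦X⟧} (hG : GSys q C T y) (i : ι) {j m : ℕ}
    (hj : j ≤ m) : ‖((coeff j (y i) : ℚ) : ℚ_[p])‖ ≤ C ^ (m + 1) := by
  obtain ⟨d, hd0, hdC, hd⟩ := hG.den m
  obtain ⟨a, ha⟩ := hd i j hj
  exact (norm_of_den hd0 ha).trans hdC

/-- `p`-adic size of the coefficients of the form -/
lemma form_size_p {N q : ℕ} {C : ℝ} {T : Polynomial ℤ} {y : Fin N → ℚ⟦X⟧} (hG : GSys q C T y) (P : Fin N → Polynomial ℤ)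
    (m : ℕ) : ‖((coeff m (∑ i, ps (P i) * y i) : ℚ) : ℚ_[p])‖ ≤ C * C ^ m := by
  have hC := hG.one_le
  have hC0 : 0 ≤ C * C ^ m := by positivity
  rw [map_sum]
  push_cast
  refine IsUltrametricDist.norm_sum_le_of_forall_le_of_nonneg hC0 fun i _ => ?_
  rw [coeff_mul]
  push_cast
  refine IsUltrametricDist.norm_sum_le_of_forall_le_of_nonneg hC0 fun x hx => ?_
  rw [Finset.HasAntidiagonal.mem_antidiagonal] at hx
  have h3 : ((coeff x.1 (ps (P i)) : ℚ) : ℚ_[p]) = (((P i).coeff x.1 : ℤ) : ℚ_[p]) := by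
    simp [ps, Polynomial.coeff_coe]
  rw [h3, norm_mul]
  calc ‖(((P i).coeff x.1 : ℤ) : ℚ_[p])‖ * ‖((coeff x.2 (y i) : ℚ) : ℚ_[p])‖ ≤ 1 * C ^ (m + 1) :=
        mul_le_mul (Padic.norm_int_le_one _) (size_p hG i (by omega)) (norm_nonneg _) zero_le_one
    _ = C * C ^ m := by rw [one_mul, pow_succ']

section Core

variable {N q : ℕ} {C : ℝ} {T : Polynomial ℤ} {y : Fin N → ℚ⟦X⟧}

/-- the estimate for one value of the parameter `ν` -/
lemma core_p (hG : GSys q C T y) (i₀ : Fin N) (h1 : y i₀ = 1) (t v : ℕ) (hv : 0 < v) (hvt : v ≤ t)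
    (hxt : ‖((((t : ℚ) / v : ℚ)) : ℚ_[p])‖ = 1 / t) (hTt : 8 * C ≤ (t : ℝ))
    (c₁ : ℕ)
    (hrank : ∀ (n m K : ℕ) (P : Fin N → Polynomial ℚ), P ≠ 0 → (∀ i, (P i).natDegree ≤ n) →
      (∀ l < m, coeff l (∑ i, (P i : ℚ⟦X⟧) * y i) = 0) → (N - 1) * n + c₁ < m → N * n + c₁ < m + K →
      ∀ (g : ℚ) (G : ℕ → Fin N → Fin N → Polynomial ℚ), g ≠ 0 →
      (∀ s ≤ K, ∀ i, PowerSeries.C g * (((T.map (Int.castRingHom ℚ) : Polynomial ℚ) : ℚ⟦X⟧) ^ s * hd s (y i)) =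
        ∑ j, (G s i j : ℚ⟦X⟧) * y j) →
      ∀ w : Fin N → ℚ, (∀ k ≤ K, ∑ j, (Pd (T.map (Int.castRingHom ℚ)) G P k j).eval ((t : ℚ) / v) * w j = 0) → w = 0)
    (a : Fin N → ℤ) (ha0 : a ≠ 0) (ha : ∑ i, (a i : ℚ_[p]) * evp ((((t : ℚ) / v : ℚ)) : ℚ_[p]) (y i) = 0)
    (A : ℝ) (hA : ∀ i, |(a i : ℝ)| ≤ A)
    (L ν : ℕ) (hL : L = 2 * q * N + 4) (hν : c₁ < ν) :
    1 ≤ N.factorial * (A *
      ((t : ℝ) ^ (L * ν + q * (2 * ν)) * ((2 * C) ^ ((2 * q + 3) * (2 * ν) + 2 * (L * ν) + N + 1) *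
        ((N * (L * ν + 1) : ℕ) * C ^ (2 * ((N * L - 1) * ν) + 1)) ^ (N * L))) ^ (N - 1)) *
      (2 * (C * (2 * C) ^ ((N * L - 1) * ν) * (1 / (t : ℝ)) ^ ((N * L - 1) * ν - 2 * ν))) := by
  set x : ℚ_[p] := (((t : ℚ) / v : ℚ) : ℚ_[p]) with hx
  have hC := hG.one_le
  have hNpos : 0 < N := i₀.pos
  have htpos : (0 : ℝ) < t := by linarith
  have htnat : 0 < t := by exact_mod_cast htpos
  have hL4 : 4 ≤ L := by omega
  have hνpos : 0 < ν := by omega
  have hNL : 4 ≤ N * L := le_trans hL4 (Nat.le_mul_of_pos_left L hNpos)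
  set n := L * ν with hn
  set m₀ := (N * L - 1) * ν with hm₀
  set K := 2 * ν with hK
  have hNLn : N * n = N * L * ν := by rw [hn]; ring
  have hm₀' : m₀ + ν = N * n := by
    rw [hNLn, hm₀, Nat.sub_mul, one_mul]
    have : ν ≤ N * L * ν := Nat.le_mul_of_pos_left ν (by omega)
    omega
  have hm₀pos : 0 < m₀ := by
    rw [hm₀]; exact Nat.mul_pos (by omega) hνpos
  have hmn : m₀ < N * (n + 1) := by
    have : N * (n + 1) = N * n + N := by ring
    omega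
  have he : m₀ ≤ (N * L) * (N * (n + 1) - m₀) := by
    have h2 : N * (n + 1) - m₀ = ν + N := by
      have : N * (n + 1) = N * n + N := by ring
      omega
    rw [h2]
    calc m₀ ≤ N * n := by omega
      _ = N * L * ν := hNLn
      _ ≤ N * L * (ν + N) := Nat.mul_le_mul_left _ (by omega)
  obtain ⟨P, hP0, hPn, hPc, hPv⟩ := siegel_poly hC hG.size hG.den n m₀ (N * L) hm₀pos hmn he
  set A₀ : ℝ := ((N * (n + 1) : ℕ) * C ^ (2 * m₀ + 1)) ^ (N * L) with hA₀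
  have hA₀0 : 0 ≤ A₀ := by positivity
  obtain ⟨g, hg0, hgC, hgG⟩ := hG.der K
  choose! G hGd hGc hGe using hgG
  -- rational versions
  have hPQ0 : (fun i => (P i).map (Int.castRingHom ℚ)) ≠ 0 := by
    intro h
    apply hP0
    funext i
    have h2 := congrFun h i
    simp only [Pi.zero_apply] at h2
    exact (Polynomial.map_eq_zero_iff (Int.cast_injective)).1 h2
  have hsp := hrank n m₀ K (fun i => (P i).map (Int.castRingHom ℚ)) hPQ0
    (fun i => (Polynomial.natDegree_map_le).trans (hPn i)) hPv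
    (by
      have h2 : (N - 1) * n + n = N * n := by
        have h3 : (N - 1 + 1) * n = N * n := by rw [Nat.sub_add_cancel hNpos]
        rw [← h3]; ring
      have h4 : 2 * ν ≤ n := by rw [hn]; exact Nat.mul_le_mul_right _ (by omega)
      omega)
    (by omega) (g : ℚ) (fun s i j => (G s i j).map (Int.castRingHom ℚ)) (by exact_mod_cast hg0.ne')
    (by
      intro s hs i
      have h2 := hGe s hs i
      rw [← map_natCast (PowerSeries.C (R := ℚ))] at h2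
      exact h2)
  -- integer vectors
  have hdegPd : ∀ k ≤ K, ∀ j, (PdZ T G P k j).natDegree ≤ n + q * K := fun k hk j =>
    natDegree_PdZ hG.degT hPn (fun s hs i j => hGd s hs i j) hk j
  have hint : ∀ (k : Fin (K + 1)) (j : Fin N), ∃ z : ℤ, (z : ℚ) = (v : ℚ) ^ (n + q * K) *
      ((PdZ T G P k j).map (Int.castRingHom ℚ)).eval ((t : ℚ) / v) ∧
      |(z : ℝ)| ≤ (t : ℝ) ^ (n + q * K) * l1 (PdZ T G P k j) := fun k j =>
    hom_eval (hdegPd k (by have := k.2; omega) j) hv hvt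
  choose z hz hzl using hint
  have hzorth : ∀ w : Fin N → ℚ, (∀ k, ∑ j, (z k j : ℚ) * w j = 0) → w = 0 := by
    intro w hw
    apply hsp w
    intro k hk
    have h2 := hw ⟨k, by omega⟩
    have h3 : ∀ j, ((z ⟨k, by omega⟩ j : ℤ) : ℚ) = (v : ℚ) ^ (n + q * K) *
        (Pd (T.map (Int.castRingHom ℚ)) (fun s i j => (G s i j).map (Int.castRingHom ℚ))
          (fun i => (P i).map (Int.castRingHom ℚ)) k j).eval ((t : ℚ) / v) := by
      intro j
      rw [hz ⟨k, by omega⟩ j, PdZ_map]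
    simp only [h3, mul_assoc] at h2
    rw [← Finset.mul_sum] at h2
    rcases mul_eq_zero.1 h2 with h5 | h5
    · exact absurd h5 (pow_ne_zero _ (by exact_mod_cast hv.ne'))
    · exact h5
  obtain ⟨M, r₀, hMdet, hMr₀, hMr⟩ := exists_matrix a ha0 z hzorth
  -- bounds
  have hx0 : (0 : ℝ) ≤ 1 / t := by positivity
  have hx1 : (1 : ℝ) / t ≤ 1 := by rw [div_le_one htpos]; linarith
  have hC2 : C ≤ 2 * C := by linarith
  have hD2 : 2 ≤ 2 * C := by linarith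
  have hD1 : 1 ≤ 2 * C := by linarith
  have hzb : ∀ k j, |((z k j : ℤ) : ℝ)| ≤ (t : ℝ) ^ (n + q * K) * ((2 * C) ^ ((2 * q + 3) * K + 2 * n + N + 1) * A₀) := by
    intro k j
    refine (hzl k j).trans (mul_le_mul_of_nonneg_left ?_ (by positivity))
    exact PdZ_l1 hD2 hC2 hC hA₀0 hG.degT hG.sizeT hPn hPc (fun s hs i j => hGd s hs i j)
      (fun s hs i j l => hGc s hs i j l) (by have := k.2; omega) j
  -- the small forms
  have hcvy : ∀ i, Cvp x (y i) := fun i => Cvp.of_bound (A := C) (B := C) (by linarith) (by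
    rw [hxt, mul_one_div, div_lt_one htpos]; linarith) (fun m => by
    rw [← pow_succ']; exact size_p hG i le_rfl)
  set R := ∑ i, ps (P i) * y i with hR
  have hbd : ∀ k ≤ m₀, Cvp x (hd k R) ∧ ‖evp x (hd k R)‖ ≤ 2 * (C * (2 * C) ^ m₀ * ‖x‖ ^ (m₀ - k)) := by
    intro k hk
    exact ev_hd_bound (f := R) (A := C) (B := C) (by linarith) hC (by
      rw [hxt, mul_one_div, div_le_one htpos]; linarith) (form_size_p hG P) hk hPv
  have hKm : K ≤ m₀ := by rw [hK, hm₀]; exact Nat.mul_le_mul_right _ (by omega)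
  have hps : ∀ Q : Polynomial ℤ, Cvp x (ps Q) ∧ evp x (ps Q) = Polynomial.aeval x Q := by
    intro Q
    refine ⟨Cvp.coe _, ?_⟩
    rw [ps, ev_coe]
    rw [Polynomial.aeval_def, Polynomial.aeval_def, Polynomial.eval₂_map]
    congr 1
  have hform : ∀ k ≤ K, (g : ℚ_[p]) * (Polynomial.aeval x T ^ k * evp x (hd k R)) =
      ∑ j, Polynomial.aeval x (PdZ T G P k j) * evp x (y j) := by
    intro k hk
    have hbound := hbd k (by omega)
    have hPdeq := Pd_eq Polynomial.coeToPowerSeries.ringHom coe_deriv' (T := T.map (Int.castRingHom ℚ)) (Y := y)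
      (G := fun s i j => (G s i j).map (Int.castRingHom ℚ)) (K := K) (g := (g : ℚ⟦X⟧)) (fun s hs i => hGe s hs i)
      (fun i => (P i).map (Int.castRingHom ℚ)) k hk
    simp only [← PdZ_map] at hPdeq
    have hPdeq' : (g : ℚ⟦X⟧) * (ps T ^ k * hd k R) = ∑ j, ps (PdZ T G P k j) * y j := hPdeq
    have hev := congrArg (evp x) hPdeq'
    have hgC' : Cvp x ((g : ℚ⟦X⟧)) ∧ evp x ((g : ℚ⟦X⟧)) = g := by
      rw [← map_natCast (PowerSeries.C (R := ℚ))]
      exact ⟨Cvp.C _, by rw [ev_C]; simp⟩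
    rw [hgC'.1.ev_mul (((hps T).1.pow k).mul hbound.1),
      ((hps T).1.pow k).ev_mul hbound.1, (hps T).1.ev_pow, hgC'.2, (hps T).2,
      Cvp.ev_sum _ _ (fun j _ => (hps _).1.mul (hcvy j))] at hev
    rw [hev]
    refine Finset.sum_congr rfl fun j _ => ?_
    rw [(hps _).1.ev_mul (hcvy j), (hps _).2]
  set LL : ℝ := 2 * (C * (2 * C) ^ m₀ * (1 / (t : ℝ)) ^ (m₀ - K)) with hLL
  have hLL0 : 0 ≤ LL := by positivity
  have hsmall : ∀ k : Fin (K + 1), ‖∑ j, (z k j : ℚ_[p]) * evp x (y j)‖ ≤ LL := by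
    intro k
    have hk : (k : ℕ) ≤ K := by have := k.2; omega
    have h2 : ∑ j, (z k j : ℚ_[p]) * evp x (y j) = (v : ℚ_[p]) ^ (n + q * K) *
        ((g : ℚ_[p]) * (Polynomial.aeval x T ^ (k : ℕ) * evp x (hd k R))) := by
      rw [hform k hk, Finset.mul_sum]
      refine Finset.sum_congr rfl fun j _ => ?_
      have h3 : ((z k j : ℤ) : ℚ_[p]) = (v : ℚ_[p]) ^ (n + q * K) * Polynomial.aeval x (PdZ T G P k j) := by
        rw [hx, aeval_int]
        have h4 := congrArg (fun q : ℚ => (q : ℚ_[p])) (hz k j)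
        push_cast at h4 ⊢
        exact h4
      rw [h3]; ring
    rw [h2, norm_mul, norm_mul, norm_mul, norm_pow, norm_pow]
    have hv1 : ‖(v : ℚ_[p])‖ ≤ 1 := by simpa using Padic.norm_int_le_one (p := p) (v : ℤ)
    have hg1 : ‖(g : ℚ_[p])‖ ≤ 1 := by simpa using Padic.norm_int_le_one (p := p) (g : ℤ)
    have hT1 : ‖Polynomial.aeval x T‖ ≤ 1 := norm_aeval_le (by rw [hxt]; exact hx1) T
    have hbk := (hbd k (by omega)).2
    have hlast : ‖evp x (hd k R)‖ ≤ LL := by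
      refine hbk.trans ?_
      rw [hLL, hxt]
      refine mul_le_mul_of_nonneg_left ?_ (by norm_num)
      refine mul_le_mul_of_nonneg_left ?_ (by positivity)
      exact pow_le_pow_of_le_one hx0 hx1 (by omega)
    calc ‖(v : ℚ_[p])‖ ^ (n + q * K) * (‖(g : ℚ_[p])‖ * (‖Polynomial.aeval x T‖ ^ (k : ℕ) * ‖evp x (hd k R)‖))
        ≤ 1 * (1 * (1 * LL)) := by
          refine mul_le_mul (pow_le_one₀ (norm_nonneg _) hv1) (mul_le_mul hg1 (mul_le_mul
            (pow_le_one₀ (norm_nonneg _) hT1) hlast (norm_nonneg _) zero_le_one) (by positivity) zero_le_one)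
            (by positivity) zero_le_one
      _ = LL := by ring
  have hA0 : 0 ≤ A := (abs_nonneg _).trans (hA i₀)
  have hnatN : (1 : ℝ) ≤ ((N * (n + 1) : ℕ) : ℝ) := by
    exact_mod_cast (Nat.mul_pos hNpos (Nat.succ_pos n))
  have hA₀1 : 1 ≤ A₀ := by
    rw [hA₀]
    apply one_le_pow₀
    have : (1 : ℝ) ≤ C ^ (2 * m₀ + 1) := one_le_pow₀ hC
    nlinarith
  have hX1 : 1 ≤ (t : ℝ) ^ (n + q * K) * ((2 * C) ^ ((2 * q + 3) * K + 2 * n + N + 1) * A₀) := by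
    have h2 : (1 : ℝ) ≤ (t : ℝ) ^ (n + q * K) := one_le_pow₀ (by linarith)
    have h3 : (1 : ℝ) ≤ (2 * C) ^ ((2 * q + 3) * K + 2 * n + N + 1) := one_le_pow₀ hD1
    have h4 : (1 : ℝ) ≤ (2 * C) ^ ((2 * q + 3) * K + 2 * n + N + 1) * A₀ := by nlinarith
    nlinarith
  refine det_ineq_p M hMdet r₀ i₀ (fun j => evp x (y j)) (by simp only [h1]; exact ev_one) ?_ A _ LL hA0 hX1 hLL0 ?_ ?_ ?_
  · rw [hMr₀]; exact ha
  · intro j; rw [hMr₀]; exact hA j
  · intro r hr j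
    obtain ⟨k, hk⟩ := hMr r hr
    rw [hk]; exact hzb k j
  · intro r hr
    obtain ⟨k, hk⟩ := hMr r hr
    rw [hk]; exact hsmall k

end Core

end Pool.Agent.Y921.PW
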