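import Pool.Agent.Y113.G.Hd

/-!
# Values of power series with rational coefficients at `p`-adic numbers
-/

set_option autoImplicit false

open PowerSeries Finset.HasAntidiagonal

namespace Pool.Agent.Y921.PW

open Pool.Agent.Y113

variable {p : ℕ} [Fact p.Prime]

/-- the value of a power series at `x` -/
noncomputable def evp (x : ℚ_[p]) (f : ℚ⟦X⟧) : ℚ_[p] := ∑' m : ℕ, ((coeff m f : ℚ) : ℚ_[p]) * x ^ m

/-- absolute convergence at `x` -/
def Cvp (x : ℚ_[p]) (f : ℚ⟦X⟧) : Prop := Summable fun m : ℕ => ‖((coeff m f : ℚ) : ℚ_[p])‖ * ‖x‖ ^ m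

section
variable {x : ℚ_[p]}

lemma Cvp.norm {f : ℚ⟦X⟧} (hf : Cvp x f) : Summable fun m : ℕ => ‖((coeff m f : ℚ) : ℚ_[p]) * x ^ m‖ := by
  refine Summable.congr hf fun m => ?_
  rw [norm_mul, norm_pow]

lemma Cvp.summable {f : ℚ⟦X⟧} (hf : Cvp x f) : Summable fun m : ℕ => ((coeff m f : ℚ) : ℚ_[p]) * x ^ m :=
  hf.norm.of_norm

lemma Cvp.add {f g : ℚ⟦X⟧} (hf : Cvp x f) (hg : Cvp x g) : Cvp x (f + g) := by
  refine Summable.of_nonneg_of_le (fun m => by positivity) (fun m => ?_) (Summable.add hf hg)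
  rw [map_add, ← add_mul]
  push_cast
  exact mul_le_mul_of_nonneg_right (norm_add_le _ _) (by positivity)

lemma Cvp.mul {f g : ℚ⟦X⟧} (hf : Cvp x f) (hg : Cvp x g) : Cvp x (f * g) := by
  have h1 := summable_norm_sum_mul_antidiagonal_of_summable_norm (Cvp.norm hf) (Cvp.norm hg)
  refine Summable.of_nonneg_of_le (fun m => by positivity) (fun m => le_of_eq ?_) h1
  rw [coeff_mul]
  have h2 : ∑ p' ∈ antidiagonal m, ((coeff p'.1 f : ℚ) : ℚ_[p]) * x ^ p'.1 * (((coeff p'.2 g : ℚ) : ℚ_[p]) * x ^ p'.2) =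
      (((∑ p' ∈ antidiagonal m, coeff p'.1 f * coeff p'.2 g : ℚ)) : ℚ_[p]) * x ^ m := by
    rw [Rat.cast_sum, Finset.sum_mul]
    refine Finset.sum_congr rfl fun p' hp => ?_
    rw [Finset.HasAntidiagonal.mem_antidiagonal] at hp
    rw [← hp, pow_add]
    push_cast
    ring
  rw [h2, norm_mul, norm_pow]

lemma Cvp.ev_mul {f g : ℚ⟦X⟧} (hf : Cvp x f) (hg : Cvp x g) : evp x (f * g) = evp x f * evp x g := by
  unfold evp
  rw [tsum_mul_tsum_eq_tsum_sum_antidiagonal_of_summable_norm (Cvp.norm hf) (Cvp.norm hg)]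
  refine tsum_congr fun m => ?_
  rw [coeff_mul, Rat.cast_sum, Finset.sum_mul]
  refine Finset.sum_congr rfl fun p' hp => ?_
  rw [Finset.HasAntidiagonal.mem_antidiagonal] at hp
  rw [← hp, pow_add]
  push_cast
  ring

lemma Cvp.ev_add {f g : ℚ⟦X⟧} (hf : Cvp x f) (hg : Cvp x g) : evp x (f + g) = evp x f + evp x g := by
  unfold evp
  rw [← Summable.tsum_add (Cvp.summable hf) (Cvp.summable hg)]
  refine tsum_congr fun m => ?_
  rw [map_add]
  push_cast
  ring

lemma Cvp.coe (P : Polynomial ℚ) : Cvp x (P : ℚ⟦X⟧) := by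
  refine summable_of_ne_finset_zero (s := Finset.range (P.natDegree + 1)) fun m hm => ?_
  rw [Finset.mem_range, not_lt] at hm
  rw [Polynomial.coeff_coe, Polynomial.coeff_eq_zero_of_natDegree_lt (by omega)]
  simp

lemma ev_coe (P : Polynomial ℚ) : evp x (P : ℚ⟦X⟧) = Polynomial.aeval x P := by
  unfold evp
  rw [tsum_eq_sum (s := Finset.range (P.natDegree + 1)), Polynomial.aeval_eq_sum_range]
  · refine Finset.sum_congr rfl fun m _ => ?_
    rw [Polynomial.coeff_coe, Algebra.smul_def]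
    rfl
  · intro m hm
    rw [Finset.mem_range, not_lt] at hm
    rw [Polynomial.coeff_coe, Polynomial.coeff_eq_zero_of_natDegree_lt (by omega)]
    simp

lemma Cvp.C (c : ℚ) : Cvp x (C c) := by
  rw [← Polynomial.coe_C]; exact Cvp.coe _

lemma ev_C (c : ℚ) : evp x (C c) = c := by
  rw [← Polynomial.coe_C, ev_coe]; simp

lemma Cvp.one : Cvp x (1 : ℚ⟦X⟧) := by
  rw [← map_one (PowerSeries.C (R := ℚ))]; exact Cvp.C _

lemma ev_one : evp x (1 : ℚ⟦X⟧) = 1 := by
  rw [← map_one (PowerSeries.C (R := ℚ)), ev_C]; simp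

lemma Cvp.zero : Cvp x (0 : ℚ⟦X⟧) := by
  rw [← map_zero (PowerSeries.C (R := ℚ))]; exact Cvp.C _

lemma ev_zero : evp x (0 : ℚ⟦X⟧) = 0 := by
  rw [← map_zero (PowerSeries.C (R := ℚ)), ev_C]; simp

lemma Cvp.sum {σ : Type*} (s : Finset σ) (f : σ → ℚ⟦X⟧) (hf : ∀ i ∈ s, Cvp x (f i)) : Cvp x (∑ i ∈ s, f i) := by
  classical
  induction s using Finset.induction_on with
  | empty => simpa using Cvp.zero
  | insert a s ha ih =>
    rw [Finset.sum_insert ha]
    exact (hf a (Finset.mem_insert_self _ _)).add (ih fun i hi => hf i (Finset.mem_insert_of_mem hi))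

lemma Cvp.ev_sum {σ : Type*} (s : Finset σ) (f : σ → ℚ⟦X⟧) (hf : ∀ i ∈ s, Cvp x (f i)) :
    evp x (∑ i ∈ s, f i) = ∑ i ∈ s, evp x (f i) := by
  classical
  induction s using Finset.induction_on with
  | empty => simpa using ev_zero
  | insert a s ha ih =>
    rw [Finset.sum_insert ha, Finset.sum_insert ha, (hf a (Finset.mem_insert_self _ _)).ev_add
      (Cvp.sum s f fun i hi => hf i (Finset.mem_insert_of_mem hi)), ih fun i hi => hf i (Finset.mem_insert_of_mem hi)]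

lemma Cvp.pow {f : ℚ⟦X⟧} (hf : Cvp x f) (n : ℕ) : Cvp x (f ^ n) := by
  induction n with
  | zero => simpa using Cvp.one
  | succ n ih => rw [pow_succ]; exact ih.mul hf

lemma Cvp.ev_pow {f : ℚ⟦X⟧} (hf : Cvp x f) (n : ℕ) : evp x (f ^ n) = evp x f ^ n := by
  induction n with
  | zero => simpa using ev_one
  | succ n ih => rw [pow_succ, pow_succ, (hf.pow n).ev_mul hf, ih]

lemma Cvp.prod {σ : Type*} (s : Finset σ) (f : σ → ℚ⟦X⟧) (hf : ∀ i ∈ s, Cvp x (f i)) : Cvp x (∏ i ∈ s, f i) := by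
  classical
  induction s using Finset.induction_on with
  | empty => simpa using Cvp.one
  | insert a s ha ih =>
    rw [Finset.prod_insert ha]
    exact (hf a (Finset.mem_insert_self _ _)).mul (ih fun i hi => hf i (Finset.mem_insert_of_mem hi))

lemma Cvp.ev_prod {σ : Type*} (s : Finset σ) (f : σ → ℚ⟦X⟧) (hf : ∀ i ∈ s, Cvp x (f i)) :
    evp x (∏ i ∈ s, f i) = ∏ i ∈ s, evp x (f i) := by
  classical
  induction s using Finset.induction_on with
  | empty => simpa using ev_one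
  | insert a s ha ih =>
    rw [Finset.prod_insert ha, Finset.prod_insert ha, (hf a (Finset.mem_insert_self _ _)).ev_mul
      (Cvp.prod s f fun i hi => hf i (Finset.mem_insert_of_mem hi)), ih fun i hi => hf i (Finset.mem_insert_of_mem hi)]

/-- criterion for convergence -/
lemma Cvp.of_bound {f : ℚ⟦X⟧} {A B : ℝ} (hB : 0 ≤ B) (hBx : B * ‖x‖ < 1)
    (hf : ∀ m, ‖((coeff m f : ℚ) : ℚ_[p])‖ ≤ A * B ^ m) : Cvp x f := by
  have h1 : Summable fun m : ℕ => A * (B * ‖x‖) ^ m :=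
    (summable_geometric_of_lt_one (by positivity) hBx).mul_left A
  refine Summable.of_nonneg_of_le (fun m => by positivity) (fun m => ?_) h1
  calc ‖((coeff m f : ℚ) : ℚ_[p])‖ * ‖x‖ ^ m ≤ A * B ^ m * ‖x‖ ^ m :=
        mul_le_mul_of_nonneg_right (hf m) (by positivity)
    _ = A * (B * ‖x‖) ^ m := by rw [mul_assoc, ← mul_pow]

lemma norm_nat_le_one (n : ℕ) : ‖((n : ℚ) : ℚ_[p])‖ ≤ 1 := by
  have := Padic.norm_int_le_one (p := p) (n : ℤ)
  simpa using this

/-- the value of a divided derivative of a series with high order of vanishing -/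
lemma ev_hd_bound {f : ℚ⟦X⟧} {A B : ℝ} (hA : 0 ≤ A) (hB : 1 ≤ B) (hBx : 2 * B * ‖x‖ ≤ 1)
    (hf : ∀ m, ‖((coeff m f : ℚ) : ℚ_[p])‖ ≤ A * B ^ m) {m₀ k : ℕ} (hk : k ≤ m₀) (h0 : ∀ l < m₀, coeff l f = 0) :
    Cvp x (hd k f) ∧ ‖evp x (hd k f)‖ ≤ 2 * (A * (2 * B) ^ m₀ * ‖x‖ ^ (m₀ - k)) := by
  have hb : ∀ m, ‖((coeff m (hd k f) : ℚ) : ℚ_[p])‖ * ‖x‖ ^ m ≤
      A * (2 * B) ^ m₀ * ‖x‖ ^ (m₀ - k) * (1 / 2) ^ m := by
    intro m
    rw [coeff_hd]
    rcases lt_or_ge (m + k) m₀ with h | h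
    · rw [h0 _ h]
      simp only [mul_zero, Rat.cast_zero, norm_zero, zero_mul]
      positivity
    · have h1 : ‖((((m + k).choose k : ℚ) * coeff (m + k) f : ℚ) : ℚ_[p])‖ ≤ A * B ^ (m + k) := by
        rw [Rat.cast_mul, norm_mul]
        have h2 := norm_nat_le_one (p := p) ((m + k).choose k)
        calc ‖(((m + k).choose k : ℚ) : ℚ_[p])‖ * ‖((coeff (m + k) f : ℚ) : ℚ_[p])‖ ≤ 1 * (A * B ^ (m + k)) :=
              mul_le_mul h2 (hf _) (norm_nonneg _) zero_le_one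
          _ = A * B ^ (m + k) := one_mul _
      obtain ⟨r, hr⟩ : ∃ r, m = (m₀ - k) + r := ⟨m - (m₀ - k), by omega⟩
      have hmk : m + k = m₀ + r := by omega
      calc ‖((((m + k).choose k : ℚ) * coeff (m + k) f : ℚ) : ℚ_[p])‖ * ‖x‖ ^ m
          ≤ A * B ^ (m + k) * ‖x‖ ^ m := mul_le_mul_of_nonneg_right h1 (by positivity)
        _ = A * B ^ m₀ * ‖x‖ ^ (m₀ - k) * (B * ‖x‖) ^ r := by
            rw [hmk, hr, pow_add, pow_add, mul_pow B]; ring
        _ ≤ A * B ^ m₀ * ‖x‖ ^ (m₀ - k) * (1 / 2) ^ r := by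
            apply mul_le_mul_of_nonneg_left _ (by positivity)
            apply pow_le_pow_left₀ (by positivity)
            linarith
        _ ≤ A * (2 * B) ^ m₀ * ‖x‖ ^ (m₀ - k) * (1 / 2) ^ m := by
            have h3 : B ^ m₀ * (1 / 2) ^ r ≤ (2 * B) ^ m₀ * (1 / 2) ^ m := by
              have h4 : (2 * B) ^ m₀ * (1 / 2) ^ m = B ^ m₀ * (1 / 2) ^ r * (2 ^ m₀ * (1 / 2) ^ (m₀ - k)) := by
                rw [mul_pow 2, hr, pow_add]; ring
              rw [h4]
              refine le_mul_of_one_le_right (by positivity) ?_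
              have h5 : (2 : ℝ) ^ m₀ = 2 ^ (m₀ - k) * 2 ^ k := by rw [← pow_add]; congr 1; omega
              rw [h5]
              have h6 : (2 : ℝ) ^ (m₀ - k) * 2 ^ k * (1 / 2) ^ (m₀ - k) = 2 ^ k := by
                rw [one_div, inv_pow]
                field_simp
              rw [h6]
              exact one_le_pow₀ (by norm_num)
            have h7 : A * B ^ m₀ * ‖x‖ ^ (m₀ - k) * (1 / 2) ^ r =
                A * ‖x‖ ^ (m₀ - k) * (B ^ m₀ * (1 / 2) ^ r) := by ring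
            have h8 : A * (2 * B) ^ m₀ * ‖x‖ ^ (m₀ - k) * (1 / 2) ^ m =
                A * ‖x‖ ^ (m₀ - k) * ((2 * B) ^ m₀ * (1 / 2) ^ m) := by ring
            rw [h7, h8]
            exact mul_le_mul_of_nonneg_left h3 (by positivity)
  have hs : Summable fun m : ℕ => A * (2 * B) ^ m₀ * ‖x‖ ^ (m₀ - k) * (1 / 2 : ℝ) ^ m :=
    summable_geometric_two.mul_left _
  have hcv : Cvp x (hd k f) := Summable.of_nonneg_of_le (fun m => by positivity) hb hs
  refine ⟨hcv, ?_⟩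
  have h9 : ‖evp x (hd k f)‖ ≤ ∑' m : ℕ, A * (2 * B) ^ m₀ * ‖x‖ ^ (m₀ - k) * (1 / 2 : ℝ) ^ m := by
    unfold evp
    refine tsum_of_norm_bounded hs.hasSum fun m => ?_
    rw [norm_mul, norm_pow]
    exact hb m
  rw [tsum_mul_left, tsum_geometric_two] at h9
  linarith

end

end Pool.Agent.Y921.PW
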