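import Pool.Agent.Y921.PW.Core
import Pool.Agent.Y113.G.Final

/-!
# The main theorem on G-systems, `p`-adic version
-/

set_option autoImplicit false

open PowerSeries

namespace Pool.Agent.Y921.PW

open Pool.Agent.Y113

theorem G_fin_p (h_sh : T_shid) (h_loc : T_loc) (N q : ℕ) : ∃ E : ℕ, ∀ (C : ℝ) (T : Polynomial ℤ) (y : Fin N → ℚ⟦X⟧)
    (i₀ : Fin N) (p : ℕ) [Fact p.Prime] (t v : ℕ), GSys q C T y → y i₀ = 1 → LinearIndependent (Polynomial ℚ) y →
    (2 * C) ^ E ≤ (t : ℝ) → 0 < v → v ≤ t → ‖((((t : ℚ) / v : ℚ)) : ℚ_[p])‖ = 1 / t →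
    (T.map (Int.castRingHom ℚ)).eval ((t : ℚ) / v) ≠ 0 →
    ∀ a : Fin N → ℤ, ∑ i, (a i : ℚ_[p]) * evp ((((t : ℚ) / v : ℚ)) : ℚ_[p]) (y i) = 0 → a = 0 := by
  set L : ℕ := 2 * q * N + 4 with hL
  set a1 : ℕ := (L + 2 * (N * L)) * (N * L) with ha1
  set a0 : ℕ := (N + 1) * (N * L) with ha0
  set b1 : ℕ := 2 * (2 * q + 3) + 2 * L + a1 with hb1
  set b0 : ℕ := N + 1 + a0 with hb0
  set e1 : ℕ := b1 * (N - 1) + N * L with he1
  set e0 : ℕ := b0 * (N - 1) + 1 with he0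
  refine ⟨e1 + 3, ?_⟩
  intro C T y i₀ p _ t v hG h1 hLI ht hv hvt hxt hξ a ha
  by_contra hane
  have hC := hG.one_le
  have hD2 : 2 ≤ 2 * C := by linarith
  have hD1 : 1 ≤ 2 * C := by linarith
  have hNpos : 0 < N := i₀.pos
  -- the case N = 1
  rcases Nat.lt_or_ge N 2 with hN | hN
  · have hN1 : N = 1 := by omega
    apply hane
    subst hN1
    funext i
    have hi : ∀ j : Fin 1, j = i₀ := fun j => Subsingleton.elim _ _
    have h2 : ∑ i, (a i : ℚ_[p]) * evp ((((t : ℚ) / v : ℚ)) : ℚ_[p]) (y i) = (a i : ℚ_[p]) := by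
      rw [Fin.sum_univ_one]
      rw [hi 0, h1, ev_one, mul_one, hi i]
    rw [ha] at h2
    simp only [Pi.zero_apply]
    exact_mod_cast h2.symm
  have ht8 : 8 * C ≤ (t : ℝ) := by
    have h2 : (2 * C) ^ 3 ≤ (2 * C) ^ (e1 + 3) := pow_le_pow_right₀ hD1 (by omega)
    have h3 : 8 * C ≤ (2 * C) ^ 3 := by
      have : 1 ≤ C ^ 2 := one_le_pow₀ hC
      nlinarith
    linarith
  have htpos : (0 : ℝ) < t := by linarith
  have htnat : 0 < t := by exact_mod_cast htpos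
  -- the differential equation
  obtain ⟨g, hg0, hgC, hgG⟩ := hG.der 1
  obtain ⟨G, hGd, hGc, hGe⟩ := hgG 1 le_rfl
  set Tq : Polynomial ℚ := T.map (Int.castRingHom ℚ) with hTq
  have hode : ∀ i, (Tq : ℚ⟦X⟧) * d⁄dX ℚ (y i) =
      ∑ j, ((Polynomial.C ((g : ℚ)⁻¹) * (G i j).map (Int.castRingHom ℚ) : Polynomial ℚ) : ℚ⟦X⟧) * y j := by
    intro i
    have h2 := hGe i
    have h3 : hd 1 (y i) = d⁄dX ℚ (y i) := by
      have := fac_hd 1 (y i)
      simpa using this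
    rw [h3, pow_one] at h2
    have h4 : (g : ℚ⟦X⟧) = PowerSeries.C (g : ℚ) := by simp
    have h5 : PowerSeries.C ((g : ℚ)⁻¹) * ((g : ℚ⟦X⟧) * (ps T * d⁄dX ℚ (y i))) = ps T * d⁄dX ℚ (y i) := by
      rw [h4, ← mul_assoc, ← map_mul, inv_mul_cancel₀ (by exact_mod_cast hg0.ne'), map_one, one_mul]
    have h6 : (Tq : ℚ⟦X⟧) = ps T := rfl
    rw [h6, ← h5, h2, Finset.mul_sum]
    refine Finset.sum_congr rfl fun j _ => ?_
    rw [Polynomial.coe_mul, Polynomial.coe_C, mul_assoc]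
    rfl
  have hξ0 : ((t : ℚ) / v) ≠ 0 := by
    apply div_ne_zero
    · exact_mod_cast htnat.ne'
    · exact_mod_cast hv.ne'
  obtain ⟨c₁, hc₁⟩ := rank_point h_sh h_loc hode hLI i₀ h1 ((t : ℚ) / v) hξ0 hξ
  set A : ℝ := ∑ i, |(a i : ℝ)| with hA
  have hAi : ∀ i, |(a i : ℝ)| ≤ A := fun i =>
    Finset.single_le_sum (f := fun i => |(a i : ℝ)|) (fun _ _ => abs_nonneg _) (Finset.mem_univ i)
  have hA0 : 0 ≤ A := (abs_nonneg _).trans (hAi i₀)
  have hcore := fun ν hν => core_p hG i₀ h1 t v hv hvt hxt ht8 c₁ hc₁ a hane ha A hAi L ν hL hν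
  -- the simplified inequality
  have hkey : ∀ ν : ℕ, c₁ < ν → (2 * C) ^ ν ≤ (N.factorial * A) * (2 * C) ^ e0 := by
    intro ν hν
    have h := hcore ν hν
    have hNL : 4 ≤ N * L := le_trans (by omega) (Nat.le_mul_of_pos_left L hNpos)
    have hm₀ : (N * L - 1) * ν ≤ N * L * ν := Nat.mul_le_mul_right _ (Nat.sub_le _ _)
    have hA₀ := A0_bound hC N L ν ((N * L - 1) * ν) hm₀
    rw [← ha1, ← ha0] at hA₀
    set A₀ : ℝ := ((N * (L * ν + 1) : ℕ) * C ^ (2 * ((N * L - 1) * ν) + 1)) ^ (N * L) with hA₀d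
    have hA₀0 : 0 ≤ A₀ := by positivity
    set r : ℕ := (L + 2 * q) * ν with hr
    have hpe : L * ν + q * (2 * ν) = r := by rw [hr]; ring
    have hX : (t : ℝ) ^ (L * ν + q * (2 * ν)) * ((2 * C) ^ ((2 * q + 3) * (2 * ν) + 2 * (L * ν) + N + 1) * A₀) ≤
        (t : ℝ) ^ r * (2 * C) ^ (b1 * ν + b0) := by
      rw [hpe]
      refine mul_le_mul_of_nonneg_left ?_ (by positivity)
      calc (2 * C) ^ ((2 * q + 3) * (2 * ν) + 2 * (L * ν) + N + 1) * A₀
          ≤ (2 * C) ^ ((2 * q + 3) * (2 * ν) + 2 * (L * ν) + N + 1) * (2 * C) ^ (a1 * ν + a0) :=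
            mul_le_mul_of_nonneg_left hA₀ (by positivity)
        _ = (2 * C) ^ (b1 * ν + b0) := by
            rw [← pow_add]; congr 1; rw [hb1, hb0]; ring
    have hm₀e : (N * L - 1) * ν - 2 * ν = r * (N - 1) + (1 + 2 * q) * ν := by
      have h2 : (N * L - 1) = (L + 2 * q) * (N - 1) + (1 + 2 * q) + 2 := by
        obtain ⟨M, rfl⟩ : ∃ M, N = M + 1 := ⟨N - 1, by omega⟩
        rw [Nat.add_sub_cancel]
        have : (M + 1) * L = M * L + L := by ring
        rw [this]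
        have h3 : L = 2 * q * M + 2 * q + 4 := by rw [hL]; ring
        have h4 : (L + 2 * q) * M = M * L + 2 * q * M := by ring
        rw [h4]
        omega
      rw [h2, hr]
      have h5 : ((L + 2 * q) * (N - 1) + (1 + 2 * q) + 2) * ν = (L + 2 * q) * ν * (N - 1) + (1 + 2 * q) * ν + 2 * ν := by
        ring
      rw [h5]
      omega
    have hLLb : 2 * (C * (2 * C) ^ ((N * L - 1) * ν) * (1 / (t : ℝ)) ^ ((N * L - 1) * ν - 2 * ν)) ≤
        (2 * C) ^ (N * L * ν + 1) * (1 / (t : ℝ)) ^ ((N * L - 1) * ν - 2 * ν) := by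
      have h2 : (2 * C) ^ ((N * L - 1) * ν) ≤ (2 * C) ^ (N * L * ν) := pow_le_pow_right₀ hD1 hm₀
      calc 2 * (C * (2 * C) ^ ((N * L - 1) * ν) * (1 / (t : ℝ)) ^ ((N * L - 1) * ν - 2 * ν))
          = (2 * C) * (2 * C) ^ ((N * L - 1) * ν) * (1 / (t : ℝ)) ^ ((N * L - 1) * ν - 2 * ν) := by ring
        _ ≤ (2 * C) * (2 * C) ^ (N * L * ν) * (1 / (t : ℝ)) ^ ((N * L - 1) * ν - 2 * ν) :=
            mul_le_mul_of_nonneg_right (mul_le_mul_of_nonneg_left h2 (by linarith)) (by positivity)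
        _ = _ := by rw [pow_succ']
    -- combine
    have hcomb : (N.factorial * (A * ((t : ℝ) ^ r * (2 * C) ^ (b1 * ν + b0)) ^ (N - 1)) *
        ((2 * C) ^ (N * L * ν + 1) * (1 / (t : ℝ)) ^ ((N * L - 1) * ν - 2 * ν))) ≤
        (N.factorial * A) * (2 * C) ^ (e1 * ν + e0) * (1 / (t : ℝ)) ^ ν := by
      rw [hm₀e, mul_pow, ← pow_mul, ← pow_mul]
      have h2 : (t : ℝ) ^ (r * (N - 1)) * (1 / (t : ℝ)) ^ (r * (N - 1) + (1 + 2 * q) * ν) ≤
          (1 / (t : ℝ)) ^ ν := by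
        rw [pow_add (1 / (t : ℝ)), ← mul_assoc, ← mul_pow, mul_one_div_cancel htpos.ne', one_pow, one_mul]
        apply pow_le_pow_of_le_one (by positivity)
        · rw [div_le_one htpos]; linarith
        · calc ν = 1 * ν := (one_mul ν).symm
            _ ≤ (1 + 2 * q) * ν := Nat.mul_le_mul_right _ (by omega)
      have h4 : (N.factorial * (A * ((t : ℝ) ^ (r * (N - 1)) * (2 * C) ^ ((b1 * ν + b0) * (N - 1)))) *
          ((2 * C) ^ (N * L * ν + 1) * (1 / (t : ℝ)) ^ (r * (N - 1) + (1 + 2 * q) * ν))) =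
          (N.factorial * A) * (2 * C) ^ (e1 * ν + e0) *
          ((t : ℝ) ^ (r * (N - 1)) * (1 / (t : ℝ)) ^ (r * (N - 1) + (1 + 2 * q) * ν)) := by
        have : e1 * ν + e0 = (b1 * ν + b0) * (N - 1) + (N * L * ν + 1) := by rw [he1, he0]; ring
        rw [this, pow_add (2 * C) ((b1 * ν + b0) * (N - 1))]
        ring
      rw [h4]
      exact mul_le_mul_of_nonneg_left h2 (by positivity)
    have hfin : 1 ≤ (N.factorial * A) * (2 * C) ^ (e1 * ν + e0) * (1 / (t : ℝ)) ^ ν := by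
      refine (h.trans ?_).trans hcomb
      refine mul_le_mul ?_ hLLb (by positivity) (by positivity)
      refine mul_le_mul_of_nonneg_left ?_ (by positivity)
      refine mul_le_mul_of_nonneg_left ?_ hA0
      exact pow_le_pow_left₀ (by positivity) hX _
    have ht2 : (2 * C) ^ (e1 + 1) ≤ (t : ℝ) := (pow_le_pow_right₀ hD1 (by omega)).trans ht
    have ht3 : (2 * C) ^ ((e1 + 1) * ν) ≤ (t : ℝ) ^ ν := by
      rw [pow_mul]; exact pow_le_pow_left₀ (by positivity) ht2 ν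
    have h5 : (t : ℝ) ^ ν ≤ (N.factorial * A) * (2 * C) ^ (e1 * ν + e0) := by
      have h6 := mul_le_mul_of_nonneg_right hfin (pow_nonneg htpos.le ν)
      rw [one_mul, mul_assoc, ← mul_pow, one_div_mul_cancel htpos.ne', one_pow, mul_one] at h6
      exact h6
    have h7 : (2 * C) ^ (e1 * ν) * (2 * C) ^ ν ≤ (2 * C) ^ (e1 * ν) * ((N.factorial * A) * (2 * C) ^ e0) := by
      calc (2 * C) ^ (e1 * ν) * (2 * C) ^ ν = (2 * C) ^ ((e1 + 1) * ν) := by rw [← pow_add]; congr 1; ring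
        _ ≤ (t : ℝ) ^ ν := ht3
        _ ≤ (N.factorial * A) * (2 * C) ^ (e1 * ν + e0) := h5
        _ = _ := by rw [pow_add]; ring
    exact le_of_mul_le_mul_left h7 (by positivity)
  -- contradiction
  have htend := tendsto_pow_atTop_atTop_of_one_lt (show (1 : ℝ) < 2 * C by linarith)
  obtain ⟨ν, hν1, hν2⟩ := ((htend.eventually_gt_atTop ((N.factorial * A) * (2 * C) ^ e0)).and
    (Filter.eventually_gt_atTop c₁)).exists
  exact absurd (hkey ν hν2) (not_le.2 hν1)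

/-- the main theorem on G-systems, `p`-adic version -/
theorem G_of_p (h_sh : T_shid) (h_loc : T_loc) (N q : ℕ) : ∃ E : ℕ, ∀ (ι : Type) [Fintype ι] (C : ℝ) (T : Polynomial ℤ)
    (y : ι → ℚ⟦X⟧) (i₀ : ι) (p : ℕ) [Fact p.Prime] (t v : ℕ), Fintype.card ι ≤ N → GSys q C T y → y i₀ = 1 →
    LinearIndependent (Polynomial ℚ) y → (2 * C) ^ E ≤ (t : ℝ) → 0 < v → v ≤ t →
    ‖((((t : ℚ) / v : ℚ)) : ℚ_[p])‖ = 1 / t → (T.map (Int.castRingHom ℚ)).eval ((t : ℚ) / v) ≠ 0 →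
    LinearIndependent ℚ (fun i => evp ((((t : ℚ) / v : ℚ)) : ℚ_[p]) (y i)) := by
  choose E hE using fun N' => G_fin_p h_sh h_loc N' q
  refine ⟨∑ N' ∈ Finset.range (N + 1), E N', ?_⟩
  intro ι _ C T y i₀ p _ t v hcard hG h1 hLI ht hv hvt hxt hT
  classical
  set N' := Fintype.card ι with hN'
  let e : Fin N' ≃ ι := (Fintype.equivFin ι).symm
  have hC := hG.one_le
  have hEle : E N' ≤ ∑ N' ∈ Finset.range (N + 1), E N' :=
    Finset.single_le_sum (f := E) (fun _ _ => Nat.zero_le _) (Finset.mem_range.2 (by omega))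
  have hG' : GSys q C T (fun i => y (e i)) :=
    { one_le := hG.one_le
      degT := hG.degT
      sizeT := hG.sizeT
      size := fun i m => hG.size _ m
      den := fun m => by
        obtain ⟨d, hd1, hd2, hd3⟩ := hG.den m
        exact ⟨d, hd1, hd2, fun i => hd3 _⟩
      der := fun k => by
        obtain ⟨g, hg1, hg2, hg3⟩ := hG.der k
        refine ⟨g, hg1, hg2, fun s hs => ?_⟩
        obtain ⟨G, h3, h4, h5⟩ := hg3 s hs
        refine ⟨fun i j => G (e i) (e j), fun i j => h3 _ _, fun i j l => h4 _ _ _, fun i => ?_⟩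
        rw [h5, ← Equiv.sum_comp e] }
  have hLI' : LinearIndependent (Polynomial ℚ) (fun i => y (e i)) := hLI.comp e e.injective
  have hmain := hE N' C T (fun i => y (e i)) (e.symm i₀) p t v hG' (by simpa using h1) hLI'
    ((pow_le_pow_right₀ (by linarith) hEle).trans ht) hv hvt hxt hT
  -- from integers to rationals
  rw [Fintype.linearIndependent_iff]
  intro c hc
  obtain ⟨d, hd⟩ := IsLocalization.exist_integer_multiples_of_finset (nonZeroDivisors ℤ) (Finset.univ.image c)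
  have hd0 : (d : ℤ) ≠ 0 := nonZeroDivisors.ne_zero d.2
  have hint : ∀ i, ∃ z : ℤ, (z : ℚ) = (d : ℤ) * c i := by
    intro i
    obtain ⟨z, hz⟩ := hd (c i) (Finset.mem_image_of_mem c (Finset.mem_univ i))
    refine ⟨z, ?_⟩
    rw [← zsmul_eq_mul]
    simpa using hz
  choose z hz using hint
  set x : ℚ_[p] := ((((t : ℚ) / v : ℚ)) : ℚ_[p]) with hx
  have hz0 := hmain (fun i => z (e i)) (by
    have h2 : ∑ i, (z (e i) : ℚ_[p]) * evp x (y (e i)) = ∑ i, (z i : ℚ_[p]) * evp x (y i) :=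
      Equiv.sum_comp e (fun i => (z i : ℚ_[p]) * evp x (y i))
    rw [h2]
    have h3 : ∀ i, (z i : ℚ_[p]) * evp x (y i) = ((d : ℤ) : ℚ_[p]) * (c i • evp x (y i)) := by
      intro i
      have : ((z i : ℤ) : ℚ_[p]) = ((d : ℤ) : ℚ_[p]) * ((c i : ℚ) : ℚ_[p]) := by exact_mod_cast congrArg (fun q : ℚ => (q : ℚ_[p])) (hz i)
      rw [this, Rat.smul_def]; ring
    rw [Finset.sum_congr rfl fun i _ => h3 i, ← Finset.mul_sum, hc, mul_zero])
  intro i
  have h4 := congrFun hz0 (e.symm i)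
  simp only [Equiv.apply_symm_apply, Pi.zero_apply] at h4
  have h5 := hz i
  rw [h4] at h5
  simp only [Int.cast_zero] at h5
  rcases mul_eq_zero.1 h5.symm with h6 | h6
  · exact absurd (by exact_mod_cast h6) hd0
  · exact h6

end Pool.Agent.Y921.PW
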