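import Pool.Agent.Y921.PW.Val

/-!
# The functions `log (1 + g z)`
-/

set_option autoImplicit false

open PowerSeries

namespace Pool.Agent.Y921.PW

open Pool.Agent.Y113 Pool.Agent.Y916

/-- `log (1 + g z)` -/
noncomputable def lgp (g : ℕ) : ℚ⟦X⟧ := PowerSeries.mk fun m => -((-(g : ℚ)) ^ m / m)

lemma coeff_lgp (g m : ℕ) : coeff m (lgp g) = -((-(g : ℚ)) ^ m / m) := by simp [lgp]

lemma lgp_const (g : ℕ) : constantCoeff (lgp g) = 0 := by
  rw [← coeff_zero_eq_constantCoeff_apply, coeff_lgp]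
  simp

lemma der_lgp (g : ℕ) : (1 + C (g : ℚ) * X) * derivative ℚ (lgp g) = C (g : ℚ) := by
  have h1 : ∀ m, coeff m (derivative ℚ (lgp g)) = g * (-(g : ℚ)) ^ m := by
    intro m
    rw [PowerSeries.coeff_derivative, coeff_lgp]
    have : ((m : ℚ) + 1) ≠ 0 := by positivity
    push_cast
    rw [pow_succ]
    field_simp
  ext m
  rw [add_mul, one_mul, map_add, h1, mul_assoc, coeff_C_mul]
  cases m with
  | zero => simp
  | succ m =>
    rw [coeff_succ_X_mul, h1, coeff_C, if_neg (Nat.succ_ne_zero m), pow_succ]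
    ring

section Tg
variable {n : ℕ} (g : Fin n → ℕ)

/-- `∏ (1 + g_i X)` -/
noncomputable def Tg : Polynomial ℤ := ∏ i, (1 + Polynomial.C (g i : ℤ) * Polynomial.X)

/-- `g_i ∏_{j ≠ i} (1 + g_j X)` -/
noncomputable def cf (i : Fin n) : Polynomial ℤ :=
  Polynomial.C (g i : ℤ) * ∏ j ∈ Finset.univ.erase i, (1 + Polynomial.C (g j : ℤ) * Polynomial.X)

lemma fac_deg (a : ℕ) : (1 + Polynomial.C (a : ℤ) * Polynomial.X).natDegree ≤ 1 := by
  compute_degree

lemma cf_deg (i : Fin n) : (cf g i).natDegree < n := by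
  unfold cf
  refine lt_of_le_of_lt (Polynomial.natDegree_C_mul_le _ _) ?_
  refine lt_of_le_of_lt (Polynomial.natDegree_prod_le _ _) ?_
  refine lt_of_le_of_lt (Finset.sum_le_sum fun j _ => fac_deg (g j)) ?_
  rw [Finset.sum_const, Finset.card_erase_of_mem (Finset.mem_univ i), Finset.card_univ, Fintype.card_fin, smul_eq_mul]
  have := i.2
  omega

lemma Tg_coeff0 : (Tg g).coeff 0 = 1 := by
  rw [Polynomial.coeff_zero_eq_eval_zero, Tg, Polynomial.eval_prod]
  simp

lemma Tg_deg (hg : ∀ i, 1 ≤ g i) : (Tg g).natDegree = n := by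
  have h1 : ∀ a : ℕ, 1 ≤ a → (1 + Polynomial.C (a : ℤ) * Polynomial.X).natDegree = 1 := by
    intro a ha
    rw [add_comm, ← Polynomial.C_1]
    exact Polynomial.natDegree_linear (by exact_mod_cast (by omega : a ≠ 0))
  have h2 : ∀ i ∈ Finset.univ, (1 + Polynomial.C (g i : ℤ) * Polynomial.X) ≠ 0 := by
    intro i _ h
    have := h1 (g i) (hg i)
    rw [h] at this
    simp at this
  rw [Tg, Polynomial.natDegree_prod _ _ h2, Finset.sum_congr rfl fun i _ => h1 (g i) (hg i)]
  simp

lemma Tg_coeff {H : ℕ} (hg : ∀ i, g i ≤ H) (l : ℕ) : |(Tg g).coeff l| ≤ ((H + 1) ^ n : ℕ) := by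
  have hnn : ∀ (s : Finset (Fin n)) (l : ℕ), 0 ≤ (∏ i ∈ s, (1 + Polynomial.C (g i : ℤ) * Polynomial.X)).coeff l := by
    intro s
    induction s using Finset.induction_on with
    | empty =>
      intro l
      rw [Finset.prod_empty, Polynomial.coeff_one]
      split_ifs <;> norm_num
    | insert a s ha ih =>
      intro l
      rw [Finset.prod_insert ha, add_mul, one_mul, Polynomial.coeff_add, mul_assoc, Polynomial.coeff_C_mul]
      have h1 := ih l
      cases l with
      | zero => simpa using h1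
      | succ l =>
        rw [Polynomial.coeff_X_mul]
        have h2 := ih l
        positivity
  have hnn' : ∀ l, 0 ≤ (Tg g).coeff l := hnn _
  rw [abs_of_nonneg (hnn' l)]
  by_cases hl : l ∈ (Tg g).support
  · have h1 : (Tg g).eval 1 = ∑ m ∈ (Tg g).support, (Tg g).coeff m := by
      rw [Polynomial.eval_eq_sum, Polynomial.sum]
      simp
    have h2 : (Tg g).coeff l ≤ (Tg g).eval 1 := by
      rw [h1]
      exact Finset.single_le_sum (f := fun m => (Tg g).coeff m) (fun m _ => hnn' m) hl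
    refine h2.trans ?_
    rw [Tg, Polynomial.eval_prod]
    push_cast
    calc ∏ i, Polynomial.eval 1 (1 + Polynomial.C (g i : ℤ) * Polynomial.X) ≤ ∏ _i : Fin n, ((H : ℤ) + 1) := by
          refine Finset.prod_le_prod (fun i _ => ?_) fun i _ => ?_
          · simp
            positivity
          · simp
            have := hg i
            omega
      _ = _ := by simp
  · rw [Polynomial.notMem_support_iff.1 hl]
    positivity

lemma ps_prod {ι : Type} (s : Finset ι) (f : ι → Polynomial ℤ) : ps (∏ i ∈ s, f i) = ∏ i ∈ s, ps (f i) := by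
  classical
  unfold ps
  induction s using Finset.induction_on with
  | empty => simp
  | insert a s ha ih => rw [Finset.prod_insert ha, Finset.prod_insert ha, Polynomial.map_mul, Polynomial.coe_mul, ih]

lemma ps_mul (a b : Polynomial ℤ) : ps (a * b) = ps a * ps b := by
  unfold ps
  rw [Polynomial.map_mul, Polynomial.coe_mul]

lemma ps_fac (a : ℕ) : ps (1 + Polynomial.C (a : ℤ) * Polynomial.X) = 1 + C (a : ℚ) * X := by
  unfold ps
  rw [Polynomial.map_add, Polynomial.map_one, Polynomial.map_mul, Polynomial.map_C, Polynomial.map_X,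
    Polynomial.coe_add, Polynomial.coe_one, Polynomial.coe_mul, Polynomial.coe_C, Polynomial.coe_X, eq_intCast,
    Int.cast_natCast]

lemma ps_C (a : ℕ) : ps (Polynomial.C (a : ℤ)) = C (a : ℚ) := by
  unfold ps
  rw [Polynomial.map_C, Polynomial.coe_C, eq_intCast, Int.cast_natCast]

lemma part (i : Fin n) : lgp (g i) = ∑ s : Fin n, C (((cf g i).coeff s : ℤ) : ℚ) * F (Tg g) s := by
  have hT : (Tg g).coeff 0 = 1 := Tg_coeff0 g
  have hps : ps (Tg g) ≠ 0 := by
    intro h
    have := congrArg (coeff 0) h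
    rw [ps, Polynomial.coeff_coe, Polynomial.coeff_map, hT] at this
    simp at this
  refine PowerSeries.derivative.ext ?_ ?_
  · apply mul_left_cancel₀ hps
    have h1 : ps (Tg g) * derivative ℚ (lgp (g i)) = ps (cf g i) := by
      rw [Tg, ← Finset.mul_prod_erase _ _ (Finset.mem_univ i), ps_mul, ps_fac, mul_right_comm, der_lgp, cf, ps_mul, ps_C]
    rw [h1, map_sum, Finset.mul_sum]
    have h2 : ∀ s : Fin n, ps (Tg g) * derivative ℚ (C (((cf g i).coeff s : ℤ) : ℚ) * F (Tg g) s) =
        C (((cf g i).coeff s : ℤ) : ℚ) * ((Polynomial.X ^ (s : ℕ) : Polynomial ℚ) : ℚ⟦X⟧) := by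
      intro s
      have h3 : derivative ℚ (C (((cf g i).coeff s : ℤ) : ℚ) * F (Tg g) s) =
          C (((cf g i).coeff s : ℤ) : ℚ) * derivative ℚ (F (Tg g) s) := by
        rw [← PowerSeries.smul_eq_C_mul, ← PowerSeries.smul_eq_C_mul, Derivation.map_smul]
      rw [h3, mul_left_comm, Pool.Agent.Y796.LI.der_F _ hT]
    rw [Finset.sum_congr rfl fun s _ => h2 s]
    ext m
    rw [map_sum, ps, Polynomial.coeff_coe, Polynomial.coeff_map]
    have h4 : ∀ s : Fin n, coeff m (C (((cf g i).coeff s : ℤ) : ℚ) * ((Polynomial.X ^ (s : ℕ) : Polynomial ℚ) : ℚ⟦X⟧)) =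
        if m = (s : ℕ) then (((cf g i).coeff m : ℤ) : ℚ) else 0 := by
      intro s
      rw [coeff_C_mul, Polynomial.coeff_coe, Polynomial.coeff_X_pow]
      split_ifs with h
      · rw [h, mul_one]
      · rw [mul_zero]
    rw [Finset.sum_congr rfl fun s _ => h4 s]
    by_cases hm : m < n
    · rw [Finset.sum_eq_single (⟨m, hm⟩ : Fin n)]
      · simp
      · intro s _ hs
        rw [if_neg]
        intro h
        exact hs (Fin.ext h.symm)
      · intro h
        exact absurd (Finset.mem_univ _) h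
    · rw [Finset.sum_eq_zero]
      · rw [Polynomial.coeff_eq_zero_of_natDegree_lt (lt_of_lt_of_le (cf_deg g i) (by omega))]
        simp
      · intro s _
        rw [if_neg]
        have := s.2
        omega
  · rw [lgp_const, map_sum, Finset.sum_eq_zero]
    intro s _
    rw [map_mul, ← coeff_zero_eq_constantCoeff_apply (F (Tg g) s)]
    simp [F]

variable {g} in
lemma rows (hinj : Function.Injective g) (hg : ∀ i, 1 ≤ g i) :
    LinearIndependent ℚ (fun i : Fin n => fun s : Fin n => (((cf g i).coeff s : ℤ) : ℚ)) := by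
  rw [Fintype.linearIndependent_iff]
  intro a ha k
  have hgk : ∀ k, (g k : ℚ) ≠ 0 := fun k => by
    have := hg k
    exact_mod_cast (by omega : g k ≠ 0)
  -- the polynomial
  have hP : ∑ i, Polynomial.C (a i) * (cf g i).map (Int.castRingHom ℚ) = 0 := by
    ext m
    rw [Polynomial.finsetSum_coeff, Polynomial.coeff_zero]
    by_cases hm : m < n
    · have := congrFun ha ⟨m, hm⟩
      rw [Finset.sum_apply] at this
      simp only [Pi.smul_apply, smul_eq_mul, Pi.zero_apply] at this
      rw [← this]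
      refine Finset.sum_congr rfl fun i _ => ?_
      rw [Polynomial.coeff_C_mul, Polynomial.coeff_map]
      simp
    · refine Finset.sum_eq_zero fun i _ => ?_
      rw [Polynomial.coeff_C_mul, Polynomial.coeff_map,
        Polynomial.coeff_eq_zero_of_natDegree_lt (lt_of_lt_of_le (cf_deg g i) (by omega))]
      simp
  have h1 := congrArg (Polynomial.eval (-(1 / (g k : ℚ)))) hP
  rw [Polynomial.eval_finsetSum, Polynomial.eval_zero, Finset.sum_eq_single k] at h1
  · rw [Polynomial.eval_mul, Polynomial.eval_C] at h1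
    refine (mul_eq_zero.1 h1).resolve_right ?_
    rw [cf, Polynomial.map_mul, Polynomial.map_prod, Polynomial.eval_mul, Polynomial.eval_prod]
    refine mul_ne_zero ?_ ?_
    · simpa using hgk k
    · refine Finset.prod_ne_zero_iff.2 fun j hj => ?_
      have hjk : j ≠ k := (Finset.mem_erase.1 hj).1
      simp only [Polynomial.map_add, Polynomial.map_one, Polynomial.map_mul, Polynomial.map_C, Polynomial.map_X,
        Polynomial.eval_add, Polynomial.eval_one, Polynomial.eval_mul, Polynomial.eval_C, Polynomial.eval_X]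
      intro h
      apply hjk
      apply hinj
      have h2 : (g k : ℚ) = g j := by
        have h3 := hgk k
        simp only [eq_intCast, Int.cast_natCast] at h
        field_simp at h
        linarith
      exact_mod_cast h2.symm
  · intro i _ hik
    rw [Polynomial.eval_mul]
    refine mul_eq_zero_of_right _ ?_
    rw [cf, Polynomial.map_mul, Polynomial.map_prod, Polynomial.eval_mul, Polynomial.eval_prod]
    refine mul_eq_zero_of_right _ ?_
    refine Finset.prod_eq_zero (Finset.mem_erase.2 ⟨hik.symm, Finset.mem_univ k⟩) ?_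
    have h3 := hgk k
    simp
    field_simp
    ring
  · intro h
    exact absurd (Finset.mem_univ _) h

lemma cop {a b : ℚ} (hab : a ≠ b) : IsCoprime (1 + Polynomial.C a * Polynomial.X) (1 + Polynomial.C b * Polynomial.X) := by
  have hne : a - b ≠ 0 := sub_ne_zero.2 hab
  refine ⟨Polynomial.C (-b / (a - b)), Polynomial.C (a / (a - b)), ?_⟩
  have h1 : Polynomial.C (-b / (a - b)) * (1 + Polynomial.C a * Polynomial.X) +
      Polynomial.C (a / (a - b)) * (1 + Polynomial.C b * Polynomial.X) =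
      Polynomial.C (-b / (a - b) + a / (a - b)) +
      Polynomial.C (-b / (a - b) * a + a / (a - b) * b) * Polynomial.X := by
    simp only [Polynomial.C_add, Polynomial.C_mul]
    ring
  rw [h1]
  have h2 : -b / (a - b) + a / (a - b) = 1 := by
    field_simp
    ring
  have h3 : -b / (a - b) * a + a / (a - b) * b = 0 := by
    field_simp
    ring
  rw [h2, h3, Polynomial.C_0, zero_mul, add_zero, Polynomial.C_1]

lemma irr {a : ℚ} (ha : a ≠ 0) : Irreducible (1 + Polynomial.C a * Polynomial.X) := by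
  rw [add_comm, ← Polynomial.C_1]
  exact Polynomial.irreducible_of_degree_eq_one (Polynomial.degree_linear ha)

lemma map_fac (a : ℕ) : (1 + Polynomial.C (a : ℤ) * Polynomial.X).map (Int.castRingHom ℚ) =
    1 + Polynomial.C (a : ℚ) * Polynomial.X := by
  rw [Polynomial.map_add, Polynomial.map_one, Polynomial.map_mul, Polynomial.map_C, Polynomial.map_X, eq_intCast,
    Int.cast_natCast]

lemma map_Tg : (Tg g).map (Int.castRingHom ℚ) = ∏ i, (1 + Polynomial.C (g i : ℚ) * Polynomial.X) := by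
  rw [Tg, Polynomial.map_prod]
  exact Finset.prod_congr rfl fun i _ => map_fac (g i)

variable {g} in
lemma Tg_sqf (hinj : Function.Injective g) (hg : ∀ i, 1 ≤ g i) : Squarefree ((Tg g).map (Int.castRingHom ℚ)) := by
  rw [map_Tg]
  refine Finset.squarefree_prod_of_pairwise_isCoprime ?_ fun i _ => (irr ?_).squarefree
  · intro i _ j _ hij
    exact (cop fun h => hij (hinj (by exact_mod_cast h))).isRelPrime
  · have := hg i
    exact_mod_cast (by omega : g i ≠ 0)

end Tg

section transfer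

variable {n : ℕ}

/-- substitution of linear forms -/
noncomputable def sub (c : Matrix (Fin n) (Fin n) ℚ) : MvPolynomial (Fin n) ℚ →ₐ[ℚ] MvPolynomial (Fin n) ℚ :=
  MvPolynomial.aeval fun i => ∑ s, MvPolynomial.C (c i s) * MvPolynomial.X s

lemma sub_deg (c : Matrix (Fin n) (Fin n) ℚ) (P : MvPolynomial (Fin n) ℚ) : (sub c P).totalDegree ≤ P.totalDegree := by
  unfold sub
  rw [MvPolynomial.aeval_def, MvPolynomial.eval₂_eq']
  refine (MvPolynomial.totalDegree_finsetSum _ _).trans (Finset.sup_le fun d hd => ?_)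
  refine (MvPolynomial.totalDegree_mul _ _).trans ?_
  rw [MvPolynomial.algebraMap_eq, MvPolynomial.totalDegree_C, zero_add]
  refine (MvPolynomial.totalDegree_finsetProd _ _).trans ?_
  have h1 : ∀ i, (∑ s, MvPolynomial.C (c i s) * MvPolynomial.X s : MvPolynomial (Fin n) ℚ).totalDegree ≤ 1 := by
    intro i
    refine (MvPolynomial.totalDegree_finsetSum _ _).trans (Finset.sup_le fun s _ => ?_)
    refine (MvPolynomial.totalDegree_mul _ _).trans ?_
    rw [MvPolynomial.totalDegree_C, zero_add, MvPolynomial.totalDegree_X]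
  calc ∑ i, ((∑ s, MvPolynomial.C (c i s) * MvPolynomial.X s : MvPolynomial (Fin n) ℚ) ^ d i).totalDegree
      ≤ ∑ i, d i := by
        refine Finset.sum_le_sum fun i _ => ?_
        refine (MvPolynomial.totalDegree_pow _ _).trans ?_
        calc d i * _ ≤ d i * 1 := Nat.mul_le_mul_left _ (h1 i)
          _ = d i := mul_one _
    _ = d.sum fun _ k => k := by rw [Finsupp.sum_fintype _ _ (fun _ => rfl)]
    _ ≤ P.totalDegree := MvPolynomial.le_totalDegree hd

lemma sub_comp (c d : Matrix (Fin n) (Fin n) ℚ) (h : c * d = 1) (P : MvPolynomial (Fin n) ℚ) : sub d (sub c P) = P := by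
  have h1 : (sub d).comp (sub c) = AlgHom.id ℚ _ := by
    refine MvPolynomial.algHom_ext fun i => ?_
    rw [AlgHom.comp_apply, AlgHom.id_apply]
    unfold sub
    rw [MvPolynomial.aeval_X, map_sum]
    have h2 : ∀ s, (MvPolynomial.aeval fun i => ∑ s, MvPolynomial.C (d i s) * MvPolynomial.X s :
        MvPolynomial (Fin n) ℚ →ₐ[ℚ] MvPolynomial (Fin n) ℚ) (MvPolynomial.C (c i s) * MvPolynomial.X s) =
        ∑ j, MvPolynomial.C (c i s * d s j) * MvPolynomial.X j := by
      intro s
      rw [map_mul, MvPolynomial.aeval_X, MvPolynomial.aeval_C, Finset.mul_sum]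
      refine Finset.sum_congr rfl fun j _ => ?_
      rw [MvPolynomial.algebraMap_eq, MvPolynomial.C_mul, mul_assoc]
    rw [Finset.sum_congr rfl fun s _ => h2 s, Finset.sum_comm]
    have h3 : ∀ j, ∑ s, MvPolynomial.C (c i s * d s j) * MvPolynomial.X j =
        (MvPolynomial.C ((c * d) i j) * MvPolynomial.X j : MvPolynomial (Fin n) ℚ) := by
      intro j
      rw [← Finset.sum_mul, ← map_sum, Matrix.mul_apply]
    rw [Finset.sum_congr rfl fun j _ => h3 j, h]
    rw [Finset.sum_eq_single i]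
    · simp
    · intro j _ hj
      rw [Matrix.one_apply_ne hj.symm]
      simp
    · intro h
      exact absurd (Finset.mem_univ _) h
  exact DFunLike.congr_fun h1 P

/-- a change of basis does not change the absence of relations -/
lemma norel {A : Type} [Field A] [CharZero A] (c : Matrix (Fin n) (Fin n) ℚ) (hc : LinearIndependent ℚ c.row)
    (x y : Fin n → A) (hy : ∀ i, y i = ∑ s, ((c i s : ℚ) : A) * x s) {Δ : ℕ}
    (hx : ∀ P : MvPolynomial (Fin n) ℚ, P.totalDegree ≤ Δ → MvPolynomial.aeval x P = 0 → P = 0)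
    (P : MvPolynomial (Fin n) ℚ) (hP : P.totalDegree ≤ Δ) (hPy : MvPolynomial.aeval y P = 0) : P = 0 := by
  have hu : IsUnit c := Matrix.linearIndependent_rows_iff_isUnit.1 hc
  obtain ⟨d, hd⟩ := hu.exists_right_inv
  have h1 : MvPolynomial.aeval x (sub c P) = MvPolynomial.aeval y P := by
    have h2 : (MvPolynomial.aeval x).comp (sub c) = (MvPolynomial.aeval y : MvPolynomial (Fin n) ℚ →ₐ[ℚ] A) := by
      refine MvPolynomial.algHom_ext fun i => ?_
      rw [AlgHom.comp_apply, MvPolynomial.aeval_X, hy]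
      unfold sub
      rw [MvPolynomial.aeval_X, map_sum]
      refine Finset.sum_congr rfl fun s _ => ?_
      rw [map_mul, MvPolynomial.aeval_X, MvPolynomial.aeval_C]
      rfl
    exact DFunLike.congr_fun h2 P
  have h2 := hx (sub c P) ((sub_deg c P).trans hP) (h1.trans hPy)
  rw [← sub_comp c d hd P, h2, map_zero]

end transfer

variable {p : ℕ} [Fact p.Prime]

lemma norm_point {e v : ℕ} (hv : ¬ p ∣ v) : ‖((((p ^ e : ℕ) : ℚ) / v : ℚ) : ℚ_[p])‖ = 1 / ((p ^ e : ℕ) : ℝ) := by
  have h1 : ‖((v : ℕ) : ℚ_[p])‖ = 1 :=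
    Padic.norm_natCast_eq_one_iff.2 ((Nat.Prime.coprime_iff_not_dvd (Fact.out : p.Prime)).2 hv)
  have h2 : ((((p ^ e : ℕ) : ℚ) / v : ℚ) : ℚ_[p]) = (p : ℚ_[p]) ^ e / v := by push_cast; rfl
  rw [h2, norm_div, h1, norm_pow, Padic.norm_p]
  simp

/-- **The values of distinct `log (1 + g z)` at `p^e / v` have no polynomial relation of small degree.** -/
theorem logs_p (n Δ : ℕ) : ∃ E : ℕ, ∀ (H p e v : ℕ) [Fact p.Prime], (H + 2) ^ E ≤ p ^ e → ¬ p ∣ v →
    v ≤ p ^ e → ∀ g : Fin n → ℕ, Function.Injective g → (∀ i, 1 ≤ g i ∧ g i ≤ H) →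
    ∀ P : MvPolynomial (Fin n) ℚ, P.totalDegree ≤ Δ →
      MvPolynomial.aeval (fun i : Fin n => evp ((((p ^ e : ℕ) : ℚ) / v : ℚ) : ℚ_[p]) (lgp (g i))) P = 0 → P = 0 := by
  obtain ⟨E₀, hE₀⟩ := val_p n Δ
  obtain ⟨E₁, hE₁⟩ := cv_F n
  refine ⟨(n + 2) * (E₀ + E₁ + 1), fun H p e v _ ht hv hvt g hinj hg => ?_⟩
  have hv0 : 0 < v := by
    rcases Nat.eq_zero_or_pos v with h | h
    · rw [h] at hv
      exact absurd (dvd_zero p) hv
    · exact h
  set H' : ℕ := (H + 1) ^ n with hH'
  have hH2 : H' + 2 ≤ (H + 2) ^ (n + 2) := by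
    have h1 : (H + 1) ^ n ≤ (H + 2) ^ n := Nat.pow_le_pow_left (by omega) n
    have h2 : 1 ≤ (H + 2) ^ n := Nat.one_le_pow _ _ (by omega)
    have h3 : 4 ≤ (H + 2) ^ 2 := by
      calc 4 = 2 ^ 2 := by norm_num
        _ ≤ (H + 2) ^ 2 := Nat.pow_le_pow_left (by omega) 2
    calc H' + 2 ≤ (H + 2) ^ n + 2 * (H + 2) ^ n := by omega
      _ ≤ (H + 2) ^ n * 4 := by omega
      _ ≤ (H + 2) ^ n * (H + 2) ^ 2 := Nat.mul_le_mul_left _ h3
      _ = (H + 2) ^ (n + 2) := by rw [← pow_add]
  have hpow : (H' + 2) ^ (E₀ + E₁ + 1) ≤ p ^ e := by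
    refine le_trans (Nat.pow_le_pow_left hH2 _) ?_
    rw [← pow_mul]
    exact ht
  have hxt := norm_point (p := p) (e := e) hv
  have hpe : (0 : ℝ) < ((p ^ e : ℕ) : ℝ) := by
    have : 0 < p ^ e := pow_pos (Fact.out : p.Prime).pos e
    exact_mod_cast this
  have hcf : ∀ l, |(Tg g).coeff l| ≤ (H' : ℤ) := fun l => by
    have := Tg_coeff g (H := H) (fun i => (hg i).2) l
    exact_mod_cast this
  have hval := hE₀ H' (Tg g) p (p ^ e) v ((Nat.pow_le_pow_right (by omega) (by omega)).trans hpow) hv0 hvt hxt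
    (Tg_coeff0 g) (Tg_deg g fun i => (hg i).1) (Tg_sqf hinj fun i => (hg i).1) hcf (by
      rw [map_Tg, Polynomial.eval_prod]
      refine (Finset.prod_pos fun i _ => ?_).ne'
      simp only [Polynomial.eval_add, Polynomial.eval_one, Polynomial.eval_mul, Polynomial.eval_C, Polynomial.eval_X]
      positivity)
  have hcv : ∀ s : Fin n, Cvp ((((p ^ e : ℕ) : ℚ) / v : ℚ) : ℚ_[p]) (F (Tg g) s) := by
    refine hE₁ H' (Tg g) p _ ?_ (Tg_coeff0 g) (Tg_deg g fun i => (hg i).1).le hcf
    rw [hxt, mul_one_div, div_lt_one hpe]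
    have h1 : (H' + 2) ^ E₁ < p ^ e :=
      lt_of_lt_of_le (Nat.pow_lt_pow_right (by omega) (by omega)) hpow
    exact_mod_cast h1
  refine norel (fun i s => (((cf g i).coeff s : ℤ) : ℚ)) (rows hinj fun i => (hg i).1) _ _ (fun i => ?_) hval
  rw [part g i, Cvp.ev_sum _ _ fun s _ => (Cvp.C _).mul (hcv s)]
  refine Finset.sum_congr rfl fun s _ => ?_
  rw [(Cvp.C _).ev_mul (hcv s), ev_C]

end Pool.Agent.Y921.PW
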