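import Pool.Agent.Y921.PW.Final
import Pool.Agent.Y535.LG.Val
import Pool.Agent.Y419.LB.Base
import Pool.Agent.Y796.LI.Core

/-!
# The values of the functions `∫ z^s / T` at `p^e / v` have no polynomial relation of small degree
-/

set_option autoImplicit false

open PowerSeries

namespace Pool.Agent.Y921.PW

open Pool.Agent.Y113 Pool.Agent.Y916 Pool.Agent.Y535.LG

variable {p : ℕ} [Fact p.Prime]

lemma aeval_sum_p {n Δ : ℕ} (P : MvPolynomial (Fin n) ℚ) (hP : P.totalDegree ≤ Δ) (x : Fin n → ℚ_[p]) :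
    MvPolynomial.aeval x P = ∑ e : Mn n Δ, P.coeff (toF e) • ∏ s, x s ^ (e.1 s : ℕ) := by
  rw [MvPolynomial.aeval_def, MvPolynomial.eval₂_eq']
  have h1 : ∑ d ∈ P.support, (algebraMap ℚ ℚ_[p]) (P.coeff d) * ∏ i, x i ^ d i =
      ∑ d ∈ Finset.univ.image (toF (n := n) (Δ := Δ)),
        (algebraMap ℚ ℚ_[p]) (P.coeff d) * ∏ i, x i ^ d i := by
    refine Finset.sum_subset ?_ ?_
    · intro d hd
      obtain ⟨e, he⟩ := toF_surj P hP d hd
      exact Finset.mem_image.2 ⟨e, Finset.mem_univ _, he⟩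
    · intro d _ hd
      rw [MvPolynomial.notMem_support_iff.1 hd]
      simp
  rw [h1, Finset.sum_image (fun a _ b _ h => toF_inj h)]
  refine Finset.sum_congr rfl fun e _ => ?_
  rw [Algebra.smul_def]
  rfl

theorem val_p (n Δ : ℕ) : ∃ E : ℕ, ∀ (H : ℕ) (T : Polynomial ℤ) (p : ℕ) [Fact p.Prime] (t v : ℕ), (H + 2) ^ E ≤ t →
    0 < v → v ≤ t → ‖((((t : ℚ) / v : ℚ)) : ℚ_[p])‖ = 1 / t → T.coeff 0 = 1 →
    T.natDegree = n → Squarefree (T.map (Int.castRingHom ℚ)) → (∀ l, |T.coeff l| ≤ H) →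
    (T.map (Int.castRingHom ℚ)).eval ((t : ℚ) / v) ≠ 0 →
    ∀ P : MvPolynomial (Fin n) ℚ, P.totalDegree ≤ Δ →
      MvPolynomial.aeval (fun s : Fin n => evp ((((t : ℚ) / v : ℚ)) : ℚ_[p]) (F T s)) P = 0 → P = 0 := by
  obtain ⟨E₀, hE₀⟩ := Pool.Agent.Y419.LB.base_holds n
  obtain ⟨E₁, hE₁⟩ := t_mon n n Δ
  obtain ⟨E₂, hE₂⟩ := G_of_p Pool.Agent.Y141.GF.t_shid Pool.Agent.Y141.GF.t_loc
    (Fintype.card (Mn n Δ)) n
  refine ⟨((E₀ + 1) * E₁ + 1) * E₂ + (n + 1) + (E₀ + 1), fun H T p _ t v ht hv hvt hxt h0 hd hsq hH hne P hP hPv => ?_⟩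
  set x : ℚ_[p] := ((((t : ℚ) / v : ℚ)) : ℚ_[p]) with hx
  have hB : (1 : ℝ) ≤ (H : ℝ) + 2 := one_le_base H
  have htN : ∀ a, a ≤ ((E₀ + 1) * E₁ + 1) * E₂ + (n + 1) + (E₀ + 1) → (H + 2) ^ a ≤ t := fun a ha =>
    (Nat.pow_le_pow_right (by omega) ha).trans ht
  have htR : ∀ a, a ≤ ((E₀ + 1) * E₁ + 1) * E₂ + (n + 1) + (E₀ + 1) →
      ((H : ℝ) + 2) ^ a ≤ t := fun a ha => by exact_mod_cast htN a ha
  have hG := hE₀ H T h0 hd.le hH
  have ht1 : (1 : ℝ) ≤ t := by simpa using htR 0 (by omega)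
  have ht0 : (0 : ℝ) < t := by linarith
  have hG2 := (hE₁ _ T (fun s : Fin n => F T s) hG).mono le_rfl (pow_base H _ _)
  let e₀ : Mn n Δ := ⟨fun _ => 0, by simp⟩
  have hev := hE₂ (Mn n Δ) _ T (mo (fun s : Fin n => F T s) Δ) e₀ p t v le_rfl hG2
    (by simp [mo, e₀]) (Pool.Agent.Y796.LI.t_LI n Δ T h0 hd hsq)
    ((pow_base H _ _).trans (htR _ (by omega))) hv hvt hxt hne
  -- evaluation
  have hcv : ∀ s : Fin n, Cvp x (F T s) := by
    intro s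
    refine Cvp.of_bound (A := ((H : ℝ) + 2) ^ E₀) (B := ((H : ℝ) + 2) ^ E₀) (by positivity) ?_
      fun m => ?_
    · rw [hxt, mul_one_div, div_lt_one ht0]
      refine lt_of_lt_of_le ?_ (htR (E₀ + 1) (by omega))
      exact pow_lt_pow_right₀ (by linarith [show (0 : ℝ) ≤ H by positivity]) (by omega)
    · have := size_p (p := p) hG (some s) (le_refl m)
      rw [pow_succ'] at this
      exact this
  have hmo : ∀ e : Mn n Δ, evp x (mo (fun s : Fin n => F T s) Δ e) =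
      ∏ s : Fin n, (evp x (F T s)) ^ (e.1 s : ℕ) := by
    intro e
    unfold mo
    rw [Cvp.ev_prod _ _ fun s _ => (hcv s).pow _]
    exact Finset.prod_congr rfl fun s _ => (hcv s).ev_pow _
  rw [aeval_sum_p P hP] at hPv
  have h3 := Fintype.linearIndependent_iff.1 hev (fun e => P.coeff (toF e)) (by
    rw [← hPv]
    exact Finset.sum_congr rfl fun e _ => congrArg _ (hmo e))
  ext d
  rw [MvPolynomial.coeff_zero]
  by_contra hne
  obtain ⟨e, he⟩ := toF_surj P hP d (MvPolynomial.mem_support_iff.2 hne)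
  rw [← he] at hne
  exact hne (h3 e)

/-- convergence of the functions `∫ z^s / T` -/
theorem cv_F (n : ℕ) : ∃ E : ℕ, ∀ (H : ℕ) (T : Polynomial ℤ) (p : ℕ) [Fact p.Prime] (x : ℚ_[p]),
    ((H : ℝ) + 2) ^ E * ‖x‖ < 1 → T.coeff 0 = 1 → T.natDegree ≤ n → (∀ l, |T.coeff l| ≤ H) →
    ∀ s : Fin n, Cvp x (F T s) := by
  obtain ⟨E₀, hE₀⟩ := Pool.Agent.Y419.LB.base_holds n
  refine ⟨E₀, fun H T p _ x hx h0 hd hH s => ?_⟩
  have hG := hE₀ H T h0 hd hH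
  refine Cvp.of_bound (A := ((H : ℝ) + 2) ^ E₀) (B := ((H : ℝ) + 2) ^ E₀) (by positivity) hx fun m => ?_
  have := size_p (p := p) hG (some s) (le_refl m)
  rw [pow_succ'] at this
  exact this

end Pool.Agent.Y921.PW
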